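import Mathlib

/-! Ping-pong for three elements with a common square: the positive cone generated by
`a`, `b`, `y = a⁻¹ b⁻¹ c`. -/

set_option autoImplicit false

namespace Pool.Agent.H111Z.CO

variable {D : Type*} [Group D]

/-- three elements with a common square -/
structure Tri (D : Type*) [Group D] where
  a : D
  b : D
  c : D
  hb : b * b = a * a
  hc : c * c = a * a

namespace Tri

variable (T : Tri D)

def y : D := T.a⁻¹ * T.b⁻¹ * T.c
def z : D := T.a * T.a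
def M : Submonoid D := Submonoid.closure {T.a, T.b, T.y}
def le (g h : D) : Prop := g⁻¹ * h ∈ T.M
def K : Subgroup D := Subgroup.closure {T.a, T.b, T.c}

theorem aM : T.a ∈ T.M := Submonoid.subset_closure (by simp)
theorem bM : T.b ∈ T.M := Submonoid.subset_closure (by simp)
theorem yM : T.y ∈ T.M := Submonoid.subset_closure (by simp)
theorem c_eq : T.c = T.b * T.a * T.y := by simp [y, mul_assoc]
theorem cM : T.c ∈ T.M := by
  rw [c_eq]; exact mul_mem (mul_mem T.bM T.aM) T.yM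
theorem zM : T.z ∈ T.M := mul_mem T.aM T.aM

theorem za : Commute T.z T.a := by simp [Commute, SemiconjBy, z, mul_assoc]
theorem zb : Commute T.z T.b := by
  unfold z; rw [← T.hb]; simp [Commute, SemiconjBy, mul_assoc]
theorem zc : Commute T.z T.c := by
  unfold z; rw [← T.hc]; simp [Commute, SemiconjBy, mul_assoc]
theorem zy : Commute T.z T.y := (T.za.inv_right.mul_right T.zb.inv_right).mul_right T.zc
theorem ainv : T.a⁻¹ = T.z⁻¹ * T.a := by simp [z]
theorem binv : T.b⁻¹ = T.z⁻¹ * T.b := by unfold z; rw [← T.hb]; simp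
theorem cinv : T.c⁻¹ = T.z⁻¹ * T.c := by unfold z; rw [← T.hc]; simp
theorem aK : T.a ∈ T.K := Subgroup.subset_closure (by simp)
theorem bK : T.b ∈ T.K := Subgroup.subset_closure (by simp)
theorem cK : T.c ∈ T.K := Subgroup.subset_closure (by simp)
theorem yK : T.y ∈ T.K := mul_mem (mul_mem (inv_mem T.aK) (inv_mem T.bK)) T.cK
theorem zK : T.z ∈ T.K := mul_mem T.aK T.aK

theorem comm_K {v : D} (ha : Commute v T.a) (hb : Commute v T.b) (hc : Commute v T.c)
    {g : D} (hg : g ∈ T.K) : Commute v g := by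
  induction hg using Subgroup.closure_induction with
  | mem x hx =>
    simp only [Set.mem_insert_iff, Set.mem_singleton_iff] at hx
    rcases hx with rfl | rfl | rfl <;> assumption
  | one => exact Commute.one_right _
  | mul x y _ _ hx hy => exact hx.mul_right hy
  | inv x _ hx => exact hx.inv_right

theorem zK_comm {g : D} (hg : g ∈ T.K) : Commute T.z g := T.comm_K T.za T.zb T.zc hg

theorem le_refl (g : D) : T.le g g := by simp [le, one_mem]
theorem le_trans {g h k : D} (h1 : T.le g h) (h2 : T.le h k) : T.le g k := by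
  have := mul_mem h1 h2
  simpa [le, mul_assoc] using this
theorem le_mul (x : D) {g h : D} (h1 : T.le g h) : T.le (x * g) (x * h) := by
  simpa [le, mul_assoc] using h1
theorem le_of_mem (g : D) {w : D} (hw : w ∈ T.M) : T.le g (g * w) := by simpa [le] using hw
theorem le_of_eq' {g h w : D} (hw : w ∈ T.M) (e : h = g * w) : T.le g h := e ▸ T.le_of_mem g hw

theorem ya_eq : T.a = T.y * (T.c * T.b) := by
  have : T.y * (T.c * T.b) = T.a⁻¹ * T.b⁻¹ * (T.c * T.c) * T.b := by simp [y, mul_assoc]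
  rw [this, T.hc, ← T.hb]
  have : T.a⁻¹ * T.b⁻¹ * (T.b * T.b) * T.b = T.a⁻¹ * (T.b * T.b) := by simp [mul_assoc]
  rw [this, T.hb]; simp
theorem ab_eq : T.b = T.a * (T.y * T.c) := by
  have : T.a * (T.y * T.c) = T.b⁻¹ * (T.c * T.c) := by simp [y, mul_assoc]
  rw [this, T.hc, ← T.hb]; simp
theorem bc_eq : T.b⁻¹ * T.c = T.a * T.y := by simp [y, mul_assoc]

theorem l1y : T.le 1 T.y := T.le_of_eq' T.yM (by simp)
theorem lya : T.le T.y T.a := T.le_of_eq' (mul_mem T.cM T.bM) T.ya_eq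
theorem labc : T.le T.a (T.b⁻¹ * T.c) := T.le_of_eq' T.yM T.bc_eq
theorem lbcb : T.le (T.b⁻¹ * T.c) T.b :=
  T.le_of_eq' T.cM (by rw [mul_assoc, T.hc, ← T.hb]; simp)
theorem lbba : T.le T.b (T.b * T.a) := T.le_of_mem _ T.aM
theorem lbac : T.le (T.b * T.a) T.c := T.le_of_eq' T.yM T.c_eq
theorem lccba : T.le T.c (T.c * T.b * T.a) :=
  T.le_of_eq' (mul_mem T.bM T.aM) (by rw [mul_assoc])
theorem lcbaz : T.le (T.c * T.b * T.a) T.z :=
  T.le_of_eq' T.yM (by
    have : T.c * T.b * T.a * T.y = T.c * T.c := by simp [y, mul_assoc]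
    rw [this, T.hc]; rfl)
theorem lab : T.le T.a T.b := T.le_trans T.labc T.lbcb

def s : Fin 3 → D := ![T.a, T.b, T.c]
def lo : Fin 3 → D := ![T.y, T.b⁻¹ * T.c, T.c]
def hi : Fin 3 → D := ![T.a, T.b * T.a, T.c * T.b * T.a]

inductive Red : Fin 3 → D → Prop
  | base (i : Fin 3) (j : ℤ) : Red i (T.s i * T.z ^ j)
  | step (i i' : Fin 3) (h : i ≠ i') (g : D) (hg : Red i' g) : Red i (T.s i * g)

theorem zs (i : Fin 3) : Commute T.z (T.s i) := by
  fin_cases i
  · exact T.za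
  · exact T.zb
  · exact T.zc

theorem ss (i : Fin 3) : T.s i * T.s i = T.z := by
  fin_cases i
  · rfl
  · exact T.hb
  · exact T.hc

theorem Red.zmul {i : Fin 3} {g : D} (h : T.Red i g) (m : ℤ) : T.Red i (T.z ^ m * g) := by
  induction h with
  | base i j =>
    have : T.z ^ m * (T.s i * T.z ^ j) = T.s i * T.z ^ (m + j) := by
      rw [← mul_assoc, ((T.zs i).zpow_left m).eq, mul_assoc, zpow_add]
    rw [this]; exact Red.base i _
  | step i i' h g _ ih =>
    have : T.z ^ m * (T.s i * g) = T.s i * (T.z ^ m * g) := by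
      rw [← mul_assoc, ((T.zs i).zpow_left m).eq, mul_assoc]
    rw [this]; exact Red.step i i' h _ ih

def Nf (g : D) : Prop := (∃ j : ℤ, g = T.z ^ j) ∨ ∃ i, T.Red i g

theorem Nf.zmul {g : D} (h : T.Nf g) (m : ℤ) : T.Nf (T.z ^ m * g) := by
  rcases h with ⟨j, rfl⟩ | ⟨i, hi⟩
  · exact Or.inl ⟨m + j, by rw [zpow_add]⟩
  · exact Or.inr ⟨i, hi.zmul T m⟩

theorem Nf.smul {g : D} (h : T.Nf g) (i : Fin 3) : T.Nf (T.s i * g) := by
  rcases h with ⟨j, rfl⟩ | ⟨i', hi⟩
  · exact Or.inr ⟨i, Red.base i j⟩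
  · by_cases e : i = i'
    · subst e
      cases hi with
      | base _ j =>
        left; refine ⟨1 + j, ?_⟩
        rw [← mul_assoc, T.ss, zpow_add, zpow_one]
      | step _ i'' h g hg =>
        right; refine ⟨i'', ?_⟩
        rw [← mul_assoc, T.ss]
        simpa using hg.zmul T 1
    · exact Or.inr ⟨i, Red.step i i' e _ hi⟩

theorem nf_of_mem {g : D} (hg : g ∈ T.K) : T.Nf g := by
  have hs : ∀ x ∈ ({T.a, T.b, T.c} : Set D), ∃ i, x = T.s i := by
    intro x hx
    simp only [Set.mem_insert_iff, Set.mem_singleton_iff] at hx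
    rcases hx with rfl | rfl | rfl
    · exact ⟨0, rfl⟩
    · exact ⟨1, rfl⟩
    · exact ⟨2, rfl⟩
  induction hg using Subgroup.closure_induction_left with
  | one => exact Or.inl ⟨0, by simp⟩
  | mul_left x hx y _ ih =>
    obtain ⟨i, rfl⟩ := hs x hx
    exact ih.smul T i
  | inv_mul_cancel x hx y _ ih =>
    obtain ⟨i, rfl⟩ := hs x hx
    have : (T.s i)⁻¹ * y = T.z ^ (-1 : ℤ) * (T.s i * y) := by
      rw [← T.ss i]; simp [mul_assoc]
    rw [this]; exact (ih.smul T i).zmul T _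

theorem red_bound {i : Fin 3} {g : D} (h : T.Red i g) :
    ∃ j : ℤ, T.le (T.z ^ j * T.lo i) g ∧ T.le g (T.z ^ j * T.hi i) := by
  have h1 := T.l1y
  have h2 := T.lya
  have h3 := T.labc
  have h4 := T.lbcb
  have h5 := T.lbba
  have h6 := T.lbac
  have h7 := T.lccba
  have h8 := T.lcbaz
  induction h with
  | base i j =>
    refine ⟨j, ?_⟩
    rw [← ((T.zs i).zpow_left j).eq]
    fin_cases i
    · exact ⟨T.le_mul _ h2, T.le_refl _⟩
    · exact ⟨T.le_mul _ h4, T.le_mul _ h5⟩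
    · exact ⟨T.le_refl _, T.le_mul _ h7⟩
  | step i i' h g _ ih =>
    obtain ⟨j, hl, hu⟩ := ih
    have key : ∀ (m : ℤ), T.le (T.z ^ m * T.lo i) (T.s i * T.lo i') →
        T.le (T.s i * T.hi i') (T.z ^ m * T.hi i) →
        ∃ j : ℤ, T.le (T.z ^ j * T.lo i) (T.s i * g) ∧ T.le (T.s i * g) (T.z ^ j * T.hi i) := by
      intro m p1 p2
      have e : ∀ w, T.s i * (T.z ^ j * w) = T.z ^ j * (T.s i * w) := fun w => by
        rw [← mul_assoc, ← ((T.zs i).zpow_left j).eq, mul_assoc]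
      refine ⟨j + m, ?_, ?_⟩
      · refine T.le_trans ?_ (T.le_mul _ hl)
        rw [e, zpow_add, mul_assoc]; exact T.le_mul _ p1
      · refine T.le_trans (T.le_mul _ hu) ?_
        rw [e, zpow_add, mul_assoc]; exact T.le_mul _ p2
    have eay : T.z ^ (1 : ℤ) * T.y = T.a * (T.b⁻¹ * T.c) := by simp [z, y, mul_assoc]
    have eaa : T.z ^ (1 : ℤ) * T.a = T.a * T.z := by simp [z, mul_assoc]
    have ebc : T.z ^ (1 : ℤ) * (T.b⁻¹ * T.c) = T.b * T.c := by
      rw [zpow_one]; unfold z; rw [← T.hb]; simp [mul_assoc]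
    have ebb : T.z ^ (1 : ℤ) * (T.b * T.a) = T.b * (T.z * T.a) := by
      rw [zpow_one, ← mul_assoc, T.zb.eq, mul_assoc]
    fin_cases i <;> fin_cases i'
    · exact absurd rfl h
    · refine key 1 ?_ ?_
      · show T.le (T.z ^ (1 : ℤ) * T.y) (T.a * (T.b⁻¹ * T.c))
        rw [eay]; exact T.le_refl _
      · show T.le (T.a * (T.b * T.a)) (T.z ^ (1 : ℤ) * T.a)
        rw [eaa]; exact T.le_mul _ (T.le_trans h6 (T.le_trans h7 h8))
    · refine key 1 ?_ ?_
      · show T.le (T.z ^ (1 : ℤ) * T.y) (T.a * T.c)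
        rw [eay]; exact T.le_mul _ (T.le_trans h4 (T.le_trans h5 h6))
      · show T.le (T.a * (T.c * T.b * T.a)) (T.z ^ (1 : ℤ) * T.a)
        rw [eaa]; exact T.le_mul _ h8
    · refine key 0 ?_ ?_
      · show T.le (T.z ^ (0 : ℤ) * (T.b⁻¹ * T.c)) (T.b * T.y)
        rw [zpow_zero, one_mul]; exact T.le_trans h4 (T.le_of_mem _ T.yM)
      · show T.le (T.b * T.a) (T.z ^ (0 : ℤ) * (T.b * T.a))
        rw [zpow_zero, one_mul]; exact T.le_refl _
    · exact absurd rfl h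
    · refine key 1 ?_ ?_
      · show T.le (T.z ^ (1 : ℤ) * (T.b⁻¹ * T.c)) (T.b * T.c)
        rw [ebc]; exact T.le_refl _
      · show T.le (T.b * (T.c * T.b * T.a)) (T.z ^ (1 : ℤ) * (T.b * T.a))
        rw [ebb]; exact T.le_mul _ (T.le_trans h8 (T.le_of_mem _ T.aM))
    · refine key 0 ?_ ?_
      · show T.le (T.z ^ (0 : ℤ) * T.c) (T.c * T.y)
        rw [zpow_zero, one_mul]; exact T.le_of_mem _ T.yM
      · show T.le (T.c * T.a) (T.z ^ (0 : ℤ) * (T.c * T.b * T.a))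
        rw [zpow_zero, one_mul, mul_assoc]
        exact T.le_mul _ (T.le_trans h3 (T.le_trans h4 h5))
    · refine key 0 ?_ ?_
      · show T.le (T.z ^ (0 : ℤ) * T.c) (T.c * (T.b⁻¹ * T.c))
        rw [zpow_zero, one_mul, T.bc_eq]; exact T.le_of_mem _ (mul_mem T.aM T.yM)
      · show T.le (T.c * (T.b * T.a)) (T.z ^ (0 : ℤ) * (T.c * T.b * T.a))
        rw [zpow_zero, one_mul, mul_assoc]; exact T.le_refl _
    · exact absurd rfl h

/-- `z` is cofinal -/
theorem floor {g : D} (hg : g ∈ T.K) : ∃ j : ℤ, T.le (T.z ^ j) g ∧ T.le g (T.z ^ (j + 1)) := by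
  rcases T.nf_of_mem hg with ⟨j, rfl⟩ | ⟨i, hi⟩
  · exact ⟨j, T.le_refl _, by rw [zpow_add, zpow_one]; exact T.le_of_mem _ T.zM⟩
  · obtain ⟨j, hl, hu⟩ := T.red_bound hi
    have a1 : T.lo i ∈ T.M := by
      fin_cases i
      · exact T.yM
      · show T.b⁻¹ * T.c ∈ T.M
        rw [T.bc_eq]; exact mul_mem T.aM T.yM
      · exact T.cM
    have a2 : T.le (T.hi i) T.z := by
      have h8 := T.lcbaz
      have h7 := T.le_trans T.lccba h8
      have h6 := T.le_trans T.lbac h7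
      fin_cases i
      · exact T.le_trans T.lab (T.le_trans T.lbba h6)
      · exact h6
      · exact h8
    refine ⟨j, T.le_trans (T.le_of_mem _ a1) hl, T.le_trans hu ?_⟩
    rw [zpow_add, zpow_one]; exact T.le_mul _ a2

theorem zpow_mem_M {j : ℤ} (hj : 0 ≤ j) : T.z ^ j ∈ T.M := by
  obtain ⟨n, rfl⟩ := Int.eq_ofNat_of_zero_le hj
  rw [zpow_natCast]; exact pow_mem T.zM n

theorem total {g : D} (hg : g ∈ T.K) : g ∈ T.M ∨ g⁻¹ ∈ T.M := by
  obtain ⟨j, h1, h2⟩ := T.floor hg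
  rcases le_or_gt 0 j with h | h
  · left
    have := mul_mem (T.zpow_mem_M h) h1
    simpa [le] using this
  · right
    have := mul_mem h2 (T.zpow_mem_M (j := -(j + 1)) (by omega))
    rw [mul_assoc, ← zpow_add] at this
    simpa using this

theorem pos_cases {g : D} (hg : g ∈ T.M) :
    (∃ k : ℕ, g = T.y ^ k) ∨ ∃ k : ℕ, T.le (T.y ^ k * T.a) g := by
  induction hg using Submonoid.closure_induction_left with
  | one => exact Or.inl ⟨0, by simp⟩
  | mul_left x hx w hw ih =>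
    simp only [Set.mem_insert_iff, Set.mem_singleton_iff] at hx
    rcases hx with rfl | rfl | rfl
    · exact Or.inr ⟨0, by simpa using T.le_of_mem _ hw⟩
    · exact Or.inr ⟨0, by simpa using T.le_trans T.lab (T.le_of_mem _ hw)⟩
    · rcases ih with ⟨k, rfl⟩ | ⟨k, hk⟩
      · exact Or.inl ⟨k + 1, by rw [pow_succ']⟩
      · exact Or.inr ⟨k + 1, by rw [pow_succ', mul_assoc]; exact T.le_mul _ hk⟩

theorem neg_cases {g : D} (hg : g ∈ T.M) :
    (∃ k : ℕ, g = T.y ^ k) ∨ ∃ k : ℕ, T.le g⁻¹ ((T.y ^ k)⁻¹ * T.a⁻¹) := by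
  induction hg using Submonoid.closure_induction_right with
  | one => exact Or.inl ⟨0, by simp⟩
  | mul_right w hw0 x hx ih =>
    have hw : w ∈ T.M := hw0
    simp only [Set.mem_insert_iff, Set.mem_singleton_iff] at hx
    rcases hx with rfl | rfl | rfl
    · exact Or.inr ⟨0, by simpa [le, mul_assoc] using hw⟩
    · refine Or.inr ⟨1, ?_⟩
      have e : T.b * (T.y⁻¹ * T.a⁻¹) = T.a * T.y * T.b := by
        rw [← T.bc_eq]
        have : T.b * (T.y⁻¹ * T.a⁻¹) = T.b * T.c⁻¹ * T.b := by simp [y, mul_assoc]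
        rw [this, T.cinv, T.binv, ← mul_assoc, ← T.zb.inv_left.eq]
      have : T.a * T.y * T.b ∈ T.M := mul_mem (mul_mem T.aM T.yM) T.bM
      rw [← e] at this
      simpa [le, mul_assoc] using mul_mem hw this
    · rcases ih with ⟨k, rfl⟩ | ⟨k, hk⟩
      · exact Or.inl ⟨k + 1, by rw [pow_succ]⟩
      · refine Or.inr ⟨k + 1, ?_⟩
        have := T.le_mul T.y⁻¹ hk
        simpa [pow_succ, mul_assoc] using this

theorem tricho {g : D} (hg : g ∈ T.K) :
    (∃ k : ℤ, g = T.y ^ k) ∨ (∃ k : ℕ, T.le (T.y ^ k * T.a) g) ∨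
      ∃ k : ℕ, T.le g ((T.y ^ k)⁻¹ * T.a⁻¹) := by
  rcases T.total hg with h | h
  · rcases T.pos_cases h with ⟨k, rfl⟩ | h
    · exact Or.inl ⟨k, by simp⟩
    · exact Or.inr (Or.inl h)
  · rcases T.neg_cases h with ⟨k, hk⟩ | h
    · exact Or.inl ⟨-k, by rw [zpow_neg, zpow_natCast, ← hk, inv_inv]⟩
    · exact Or.inr (Or.inr (by simpa using h))

theorem g2 : T.le (T.y * T.a) (T.a⁻¹ * T.y⁻¹ * T.a) := by
  have e1 : T.a⁻¹ * T.b = T.y * T.c := by
    conv_lhs => rw [T.ab_eq]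
    simp
  have e2 : T.y⁻¹ * T.a = T.c * T.b := by
    conv_lhs => rw [T.ya_eq]
    simp
  have e3 : T.a⁻¹ * T.c = T.y * T.c * T.a * T.y := by
    rw [← e1]; conv_lhs => rw [T.c_eq]
    simp [mul_assoc]
  have e4 : T.a⁻¹ * T.y⁻¹ * T.a = T.y * T.a * (T.y * T.c * T.a * T.y * T.a * T.y * T.b) := by
    rw [mul_assoc, e2, ← mul_assoc, e3, ← e3]
    have : T.y * T.a * (T.a⁻¹ * T.c * T.a * T.y * T.b) = T.y * T.c * T.a * T.y * T.b := by
      simp [mul_assoc]
    rw [this, ← e3]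
  exact T.le_of_eq' (mul_mem (mul_mem (mul_mem (mul_mem (mul_mem (mul_mem T.yM T.cM) T.aM)
    T.yM) T.aM) T.yM) T.bM) e4

end Tri

end Pool.Agent.H111Z.CO
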