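import Pool.Agent.H111Z.CO.Uniq

/-! The central extension attached to a circular order, and a countable neighbourhood. -/

set_option autoImplicit false

namespace Pool.Agent.H111Z.CO

open Classical Filter Topology

variable {G : Type*} [Group G]

/-- circular orders -/
def COset (G : Type*) [Group G] : Set (G → G → G → ℤ) :=
  {c : G → G → G → ℤ |
    (∀ a b d, c a b d = 0 ∨ c a b d = 1 ∨ c a b d = -1) ∧
    (∀ a b d, c a b d = 0 ↔ (a = b ∨ b = d ∨ a = d)) ∧
    (∀ g₁ g₂ g₃ g₄, c g₂ g₃ g₄ - c g₁ g₃ g₄ + c g₁ g₂ g₄ - c g₁ g₂ g₃ = 0) ∧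
    (∀ g a b d, c (g * a) (g * b) (g * d) = c a b d)}

noncomputable def dl (g : G) : ℤ := if g = 1 then 1 else 0

noncomputable def fc (c : G → G → G → ℤ) (g h : G) : ℤ :=
  (1 - c 1 g (g * h) - dl g - dl h + dl (g * h)) / 2

theorem fc_spec {c : G → G → G → ℤ} (hc : c ∈ COset G) (g h : G) :
    2 * fc c g h = 1 - c 1 g (g * h) - dl g - dl h + dl (g * h) ∧ 0 ≤ fc c g h ∧ fc c g h ≤ 1 := by
  obtain ⟨h1, h2, -, -⟩ := hc
  unfold fc dl
  by_cases e1 : g = 1
  · subst e1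
    have : c 1 1 (1 * h) = 0 := (h2 _ _ _).2 (Or.inl rfl)
    rw [this]; simp only [one_mul, if_true]; split_ifs <;> omega
  by_cases e2 : h = 1
  · subst e2
    have : c 1 g (g * 1) = 0 := (h2 _ _ _).2 (Or.inr (Or.inl (by simp)))
    rw [this]; simp only [mul_one, if_true]; split_ifs <;> omega
  by_cases e3 : g * h = 1
  · have : c 1 g (g * h) = 0 := (h2 _ _ _).2 (Or.inr (Or.inr e3.symm))
    rw [this, if_neg e1, if_neg e2, if_pos e3]; omega
  have : c 1 g (g * h) ≠ 0 := by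
    rw [Ne, h2]; push Not
    exact ⟨fun e => e1 e.symm, fun e => e2 (by simpa using e.symm), fun e => e3 e.symm⟩
  rw [if_neg e1, if_neg e2, if_neg e3]
  rcases h1 1 g (g * h) with e | e | e <;> omega

theorem fc_one_left {c : G → G → G → ℤ} (hc : c ∈ COset G) (h : G) : fc c 1 h = 0 := by
  have h1 := (fc_spec hc 1 h).1
  have : c 1 1 (1 * h) = 0 := (hc.2.1 _ _ _).2 (Or.inl rfl)
  rw [this, one_mul] at h1
  have : dl (1 : G) = 1 := by simp [dl]
  omega

theorem fc_cocycle {c : G → G → G → ℤ} (hc : c ∈ COset G) (g h k : G) :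
    fc c g h + fc c (g * h) k = fc c h k + fc c g (h * k) := by
  have a1 := (fc_spec hc g h).1
  have a2 := (fc_spec hc (g * h) k).1
  have a3 := (fc_spec hc h k).1
  have a4 := (fc_spec hc g (h * k)).1
  have a5 := hc.2.2.1 1 g (g * h) (g * h * k)
  have a6 := hc.2.2.2 g 1 h (h * k)
  rw [mul_one, ← mul_assoc] at a6
  rw [← mul_assoc] at a4
  omega

/-- the central extension -/
@[ext] structure Ext (c : COset G) where
  k : ℤ
  g : G

namespace Ext

variable {c : COset G}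

noncomputable instance : Mul (Ext c) := ⟨fun x y => ⟨x.k + y.k + fc c.1 x.g y.g, x.g * y.g⟩⟩
instance : One (Ext c) := ⟨⟨0, 1⟩⟩
noncomputable instance : Inv (Ext c) := ⟨fun x => ⟨-x.k - fc c.1 x.g⁻¹ x.g, x.g⁻¹⟩⟩

@[simp] theorem mul_k (x y : Ext c) : (x * y).k = x.k + y.k + fc c.1 x.g y.g := rfl
@[simp] theorem mul_g (x y : Ext c) : (x * y).g = x.g * y.g := rfl
@[simp] theorem one_k : (1 : Ext c).k = 0 := rfl
@[simp] theorem one_g : (1 : Ext c).g = 1 := rfl
theorem inv_k' (x : Ext c) : (x⁻¹).k = -x.k - fc c.1 x.g⁻¹ x.g := rfl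
theorem inv_g' (x : Ext c) : (x⁻¹).g = x.g⁻¹ := rfl

noncomputable instance : Group (Ext c) :=
  Group.ofLeftAxioms
    (fun x y z => by
      ext
      · have := fc_cocycle c.2 x.g y.g z.g
        simp only [mul_k, mul_g]; omega
      · simp [mul_assoc])
    (fun x => by
      ext
      · simp [fc_one_left c.2]
      · simp)
    (fun x => by
      ext
      · simp only [mul_k, inv_k', inv_g', one_k]; ring
      · simp [inv_g'])

theorem inv_k (x : Ext c) : (x⁻¹).k = -x.k - fc c.1 x.g⁻¹ x.g := rfl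
@[simp] theorem inv_g (x : Ext c) : (x⁻¹).g = x.g⁻¹ := rfl

/-- the left order of the extension -/
def lp (c : COset G) : LP (Ext c) where
  le x y := 0 ≤ (x⁻¹ * y).k
  total x y := by
    have e : y⁻¹ * x = (x⁻¹ * y)⁻¹ := by simp
    rw [e, inv_k (x⁻¹ * y)]
    have := (fc_spec c.2 (x⁻¹ * y).g⁻¹ (x⁻¹ * y).g).2.2
    omega
  trans := by
    intro x y z h1 h2
    have e : x⁻¹ * z = (x⁻¹ * y) * (y⁻¹ * z) := by simp [mul_assoc]
    rw [e, mul_k]
    have := (fc_spec c.2 (x⁻¹ * y).g (y⁻¹ * z).g).2.1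
    omega
  mul := by
    intro g x y h
    have e : (g * x)⁻¹ * (g * y) = x⁻¹ * y := by simp [mul_assoc]
    rwa [e]

theorem tau_zpow (m : ℤ) : (⟨1, 1⟩ : Ext c) ^ m = ⟨m, 1⟩ := by
  induction m using Int.induction_on with
  | zero => rfl
  | succ m ih => rw [zpow_add_one, ih]; ext <;> simp [fc_one_left c.2]
  | pred m ih =>
    rw [zpow_sub_one, ih]
    ext
    · simp [inv_k, fc_one_left c.2]; ring
    · simp

end Ext

/-- pull back along a homomorphism -/
def LP.comap {D E : Type*} [Group D] [Group E] (P : LP E) (φ : D →* E) : LP D where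
  le x y := P.le (φ x) (φ y)
  total _ _ := P.total _ _
  trans h1 h2 := P.trans h1 h2
  mul g _ _ h := by simpa using P.mul (φ g) h

theorem ineq_comap {D E : Type*} [Group D] [Group E] {f : Fin 7 → D} {f' : Fin 7 → E}
    (R : Rel f) (R' : Rel f') (φ : D →* E) (h : ∀ i, φ (f i) = f' i) {P : LP E}
    (I : R'.Ineq P) : R.Ineq (P.comap φ) := by
  obtain ⟨h1, h2, h3, h4, h5, h6, h7, h8⟩ := I
  constructor
  · simpa [LP.lt, LP.comap, Rel.T1, Rel.ah, h] using h1
  · simpa [LP.lt, LP.comap, Rel.T1, Rel.ah, h] using h2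
  · simpa [LP.lt, LP.comap, Rel.y1_eq, Rel.ah, h] using h3
  · simpa [LP.lt, LP.comap, Rel.T2, h] using h4
  · simpa [LP.lt, LP.comap, Rel.T2, h] using h5
  · simpa [LP.lt, LP.comap, Rel.ga, Rel.y1_eq, Rel.z1_eq, Rel.ah, h] using h6
  · simpa [LP.lt, LP.comap, Rel.z2_eq, h] using h7
  · simpa [LP.lt, LP.comap, h] using h8

def cj (i j k : Fin 7) : FreeGroup (Fin 7) :=
  FreeGroup.of i * FreeGroup.of j * (FreeGroup.of i)⁻¹ * (FreeGroup.of k)⁻¹
def ci (i j : Fin 7) : FreeGroup (Fin 7) :=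
  FreeGroup.of i * FreeGroup.of j * (FreeGroup.of i)⁻¹ * (FreeGroup.of j)⁻¹⁻¹

def relW : List (FreeGroup (Fin 7)) :=
  [ci 4 0, ci 4 1, ci 4 2, ci 4 3, cj 2 0 0, cj 2 1 1, cj 3 0 0, cj 3 1 1, cj 5 0 1, cj 5 1 0,
    cj 5 2 2, cj 5 3 3, cj 5 4 4, cj 6 0 0, cj 6 1 1, cj 6 2 2, cj 6 3 3, cj 6 4 4, ci 6 5]

theorem comm_iff_conj {D : Type*} [Group D] (a b : D) : Commute a b ↔ a * b * a⁻¹ = b := by
  rw [mul_inv_eq_iff_eq_mul]; rfl

theorem rel_iff {D : Type*} [Group D] (f : Fin 7 → D) :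
    Rel f ↔ ∀ w ∈ relW, FreeGroup.lift f w = 1 := by
  simp only [relW, List.forall_mem_cons, List.not_mem_nil, false_imp_iff, implies_true, and_true,
    ci, cj, map_mul, map_inv, FreeGroup.lift_apply_of, mul_inv_eq_one]
  constructor
  · intro R
    exact ⟨R.dn1, R.dn2, R.dm1, R.dm2, conj_of_comm R.m1n1, conj_of_comm R.m1n2,
      conj_of_comm R.m2n1, conj_of_comm R.m2n2, R.tn1, R.tn2, conj_of_comm R.tm1,
      conj_of_comm R.tm2, conj_of_comm R.td, conj_of_comm R.sn1, conj_of_comm R.sn2,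
      conj_of_comm R.sm1, conj_of_comm R.sm2, conj_of_comm R.sd, R.st⟩
  · rintro ⟨h1, h2, h3, h4, h5, h6, h7, h8, h9, h10, h11, h12, h13, h14, h15, h16, h17, h18, h19⟩
    simp only [← comm_iff_conj] at h5 h6 h7 h8 h11 h12 h13 h14 h15 h16 h17 h18
    exact ⟨h1, h2, h3, h4, h5, h6, h7, h8, h9, h10, h11, h12, h13, h14, h15, h16, h17, h18, h19⟩

/-- the universal group with the relations -/
abbrev Pi0 : Type := PresentedGroup {w | w ∈ relW}

def f0 : Fin 7 → Pi0 := PresentedGroup.of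

theorem lift_f0 (w : FreeGroup (Fin 7)) :
    FreeGroup.lift f0 w = PresentedGroup.mk {w | w ∈ relW} w := by
  have : FreeGroup.lift f0 = PresentedGroup.mk {w | w ∈ relW} := by
    ext i; simp [f0, PresentedGroup.of]
  rw [this]

theorem rel0 : Rel f0 := (rel_iff f0).2 fun w hw => by
  rw [lift_f0]; exact PresentedGroup.one_of_mem hw

theorem gen0 : Subgroup.closure (Set.range f0) = ⊤ := PresentedGroup.closure_range_of _

def toE {D : Type*} [Group D] {f : Fin 7 → D} (R : Rel f) : Pi0 →* D :=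
  PresentedGroup.toGroup (f := f) ((rel_iff f).1 R)

theorem toE_f0 {D : Type*} [Group D] {f : Fin 7 → D} (R : Rel f) (i : Fin 7) :
    toE R (f0 i) = f i := PresentedGroup.toGroup.of _

theorem toE_mk {D : Type*} [Group D] {f : Fin 7 → D} (R : Rel f) (w : FreeGroup (Fin 7)) :
    toE R (PresentedGroup.mk _ w) = FreeGroup.lift f w := rfl

section

variable (g0 : Fin 7 → G) (k0 : Fin 7 → ℤ)

def lf (c : COset G) : Fin 7 → Ext c := fun i => ⟨k0 i, g0 i⟩

theorem lift_g (c : COset G) (w : FreeGroup (Fin 7)) :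
    (FreeGroup.lift (lf g0 k0 c) w).g = FreeGroup.lift g0 w := by
  induction w using FreeGroup.induction_on with
  | C1 => simp
  | of i => simp [lf]
  | inv_of i ih => simp [lf]
  | mul x y hx hy => simp [hx, hy]

omit [Group G] in
theorem cont_ev (a b d : G) : Continuous fun c : G → G → G → ℤ => c a b d :=
  (continuous_apply d).comp ((continuous_apply b).comp (continuous_apply a))

theorem fc_ev (c0 : COset G) (g h : G) : ∀ᶠ c : COset G in 𝓝 c0, fc c.1 g h = fc c0.1 g h := by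
  have hc : Continuous fun c : COset G => c.1 1 g (g * h) :=
    (cont_ev 1 g (g * h)).comp continuous_subtype_val
  have := hc.tendsto c0
  rw [nhds_discrete ℤ, tendsto_pure] at this
  filter_upwards [this] with c hc
  unfold fc; rw [hc]

theorem lift_k_ev (c0 : COset G) (w : FreeGroup (Fin 7)) : ∀ᶠ c : COset G in 𝓝 c0,
    (FreeGroup.lift (lf g0 k0 c) w).k = (FreeGroup.lift (lf g0 k0 c0) w).k := by
  induction w using FreeGroup.induction_on with
  | C1 => simp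
  | of i => simp [lf]
  | inv_of i ih =>
    filter_upwards [fc_ev c0 (g0 i)⁻¹ (g0 i)] with c hc
    simp [lf, Ext.inv_k, hc]
  | mul x y hx hy =>
    filter_upwards [hx, hy, fc_ev c0 (FreeGroup.lift g0 x) (FreeGroup.lift g0 y)] with c h1 h2 h3
    simp [h1, h2, h3, lift_g]

theorem rel_ev (c0 : COset G) (R0 : Rel (lf g0 k0 c0)) :
    ∀ᶠ c : COset G in 𝓝 c0, Rel (lf g0 k0 c) := by
  have h0 := (rel_iff _).1 R0
  have : ∀ᶠ c : COset G in 𝓝 c0, ∀ w ∈ {w | w ∈ relW},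
      (FreeGroup.lift (lf g0 k0 c) w).k = (FreeGroup.lift (lf g0 k0 c0) w).k :=
    (eventually_all_finite (List.finite_toSet relW)).2 fun w _ => lift_k_ev g0 k0 c0 w
  filter_upwards [this] with c hc
  refine (rel_iff _).2 fun w hw => ?_
  ext
  · rw [hc w hw, h0 w hw]; rfl
  · rw [lift_g, ← lift_g g0 k0 c0, h0 w hw]; rfl

theorem toE_g {c : COset G} (R : Rel (lf g0 k0 c)) {c' : COset G} (R' : Rel (lf g0 k0 c'))
    (x : Pi0) : (toE R x).g = (toE R' x).g := by
  obtain ⟨w, rfl⟩ := PresentedGroup.mk_surjective _ x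
  rw [toE_mk, toE_mk, lift_g, lift_g]

theorem lt_ev (c0 : COset G) (R0 : Rel (lf g0 k0 c0)) (x : Pi0)
    (h : ((Ext.lp c0).comap (toE R0)).lt 1 x) :
    ∀ᶠ c : COset G in 𝓝 c0, ∀ R : Rel (lf g0 k0 c), ((Ext.lp c).comap (toE R)).lt 1 x := by
  obtain ⟨w, hw⟩ := PresentedGroup.mk_surjective _ x⁻¹
  filter_upwards [lift_k_ev g0 k0 c0 w] with c hc R
  simp only [LP.lt, LP.comap, Ext.lp, map_one, mul_one, ← map_inv] at h ⊢
  rw [← hw, toE_mk] at h ⊢
  rwa [hc]

theorem subsingleton_par (hg : Subgroup.closure (Set.range g0) = ⊤) (κ : Option (ℤ × Bool)) :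
    {c : COset G | ∃ R : Rel (lf g0 k0 c), rel0.Ineq ((Ext.lp c).comap (toE R)) ∧
      rel0.Par gen0 ((Ext.lp c).comap (toE R)) κ ∧
      lf g0 k0 c 6 * lf g0 k0 c 6 = ⟨1, 1⟩}.Subsingleton := by
  rintro c ⟨R, I, hp, hs⟩ c' ⟨R', I', hp', hs'⟩
  have sg := Rel.sign_eq gen0 I I' hp hp'
  simp only [LP.comap, Ext.lp, map_one, inv_one, one_mul] at sg
  have hk : ∀ x, (toE R x).k = (toE R' x).k := by
    have h1 : ∀ (c : COset G) (R : Rel (lf g0 k0 c)), lf g0 k0 c 6 * lf g0 k0 c 6 = ⟨1, 1⟩ →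
        ∀ (m : ℤ) (x : Pi0), (toE R ((f0 6 * f0 6) ^ m * x)).k = m + (toE R x).k := by
      intro c R hs m x
      rw [map_mul, map_zpow, map_mul, toE_f0, hs, Ext.tau_zpow]
      simp [fc_one_left c.2]
    intro x
    have a1 := sg ((f0 6 * f0 6) ^ (-(toE R x).k) * x)
    have a2 := sg ((f0 6 * f0 6) ^ (-(toE R' x).k) * x)
    rw [h1 c R hs, h1 c' R' hs'] at a1 a2
    omega
  have hsurj : ∀ g : G, ∃ x, (toE R x).g = g := by
    intro g
    have : g ∈ (FreeGroup.lift g0).range := by rw [FreeGroup.range_lift_eq_closure, hg]; trivial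
    obtain ⟨w, rfl⟩ := this
    exact ⟨PresentedGroup.mk _ w, by rw [toE_mk, lift_g]⟩
  have hf : ∀ g h, fc c.1 g h = fc c'.1 g h := by
    intro g h
    obtain ⟨x, rfl⟩ := hsurj g
    obtain ⟨y, rfl⟩ := hsurj h
    have := hk (x * y)
    rw [map_mul, map_mul, Ext.mul_k, Ext.mul_k, hk x, hk y, ← toE_g g0 k0 R R' x,
      ← toE_g g0 k0 R R' y] at this
    omega
  ext a b d
  have e1 := (fc_spec c.2 (a⁻¹ * b) (b⁻¹ * d)).1
  have e2 := (fc_spec c'.2 (a⁻¹ * b) (b⁻¹ * d)).1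
  have e3 := c.2.2.2.2 a 1 (a⁻¹ * b) (a⁻¹ * b * (b⁻¹ * d))
  have e4 := c'.2.2.2.2 a 1 (a⁻¹ * b) (a⁻¹ * b * (b⁻¹ * d))
  have e5 := hf (a⁻¹ * b) (b⁻¹ * d)
  have e6 : a * (a⁻¹ * b * (b⁻¹ * d)) = d := by simp [mul_assoc]
  rw [e6, mul_one, mul_inv_cancel_left] at e3 e4
  omega

theorem countable_nhds (hg : Subgroup.closure (Set.range g0) = ⊤) (c0 : COset G)
    (R0 : Rel (lf g0 k0 c0)) (I0 : R0.Ineq (Ext.lp c0))
    (hs : lf g0 k0 c0 6 * lf g0 k0 c0 6 = ⟨1, 1⟩) : ∃ U ∈ 𝓝 c0, U.Countable := by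
  refine ⟨_, ?_, Set.countable_iUnion fun κ => (subsingleton_par g0 k0 hg κ).countable⟩
  obtain ⟨h1, h2, h3, h4, h5, h6, h7, h8⟩ := ineq_comap rel0 R0 (toE R0) (toE_f0 R0) I0
  filter_upwards [rel_ev g0 k0 c0 R0, lt_ev g0 k0 c0 R0 _ h1, lt_ev g0 k0 c0 R0 _ h2,
    lt_ev g0 k0 c0 R0 _ h3, lt_ev g0 k0 c0 R0 _ h4, lt_ev g0 k0 c0 R0 _ h5,
    lt_ev g0 k0 c0 R0 _ h6, lt_ev g0 k0 c0 R0 _ h7, lt_ev g0 k0 c0 R0 _ h8,
    fc_ev c0 (g0 6) (g0 6)] with c R a1 a2 a3 a4 a5 a6 a7 a8 a9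
  have I : rel0.Ineq ((Ext.lp c).comap (toE R)) :=
    ⟨a1 R, a2 R, a3 R, a4 R, a5 R, a6 R, a7 R, a8 R⟩
  obtain ⟨κ, hκ⟩ := Rel.exists_par gen0 I
  refine Set.mem_iUnion.2 ⟨κ, R, I, hκ, ?_⟩
  have b1 := congrArg Ext.k hs
  have b2 := congrArg Ext.g hs
  ext
  · simp only [Ext.mul_k, lf] at b1 ⊢; rw [a9]; exact b1
  · exact b2

end

theorem isClosed_CO : IsClosed (COset G) := by
  have h : ∀ (φ : (G → G → G → ℤ) → ℤ) (p : ℤ → Prop), Continuous φ → IsClosed {c | p (φ c)} :=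
    fun φ p hφ => (isClosed_discrete {z | p z}).preimage hφ
  unfold COset
  simp only [Set.setOf_and, Set.setOf_forall]
  refine IsClosed.inter ?_ (IsClosed.inter ?_ (IsClosed.inter ?_ ?_))
  · exact isClosed_iInter fun a => isClosed_iInter fun b => isClosed_iInter fun d =>
      h _ (fun z => z = 0 ∨ z = 1 ∨ z = -1) (cont_ev a b d)
  · exact isClosed_iInter fun a => isClosed_iInter fun b => isClosed_iInter fun d =>
      h _ (fun z => z = 0 ↔ (a = b ∨ b = d ∨ a = d)) (cont_ev a b d)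
  · exact isClosed_iInter fun a => isClosed_iInter fun b => isClosed_iInter fun d =>
      isClosed_iInter fun e => h _ (fun z => z = 0)
        ((((cont_ev b d e).sub (cont_ev a d e)).add (cont_ev a b e)).sub (cont_ev a b d))
  · exact isClosed_iInter fun g => isClosed_iInter fun a => isClosed_iInter fun b =>
      isClosed_iInter fun d => isClosed_eq (cont_ev _ _ _) (cont_ev _ _ _)

theorem cantor_open {W : Set (ℕ → Bool)} (hW : IsOpen W) {x : ℕ → Bool} (hx : x ∈ W) :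
    ¬ W.Countable := by
  intro hc
  obtain ⟨I, u, hu, hI⟩ := isOpen_pi_iff.1 hW x hx
  let N := I.sup id + 1
  let φ : (ℕ → Bool) → (ℕ → Bool) := fun z i => if i < N then x i else z (i - N)
  have hφ : Function.Injective φ := by
    intro z z' h
    funext i
    have := congrFun h (i + N)
    simpa [φ] using this
  have hm : ∀ z, φ z ∈ W := fun z => hI fun i hi => by
    have : i < N := Nat.lt_succ_of_le (Finset.le_sup (f := id) hi)
    simp only [φ, this, if_true]; exact (hu i hi).2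
  have : Countable (ℕ → Bool) := by
    have := hc.to_subtype
    exact (Function.Injective.countable (f := fun z => (⟨φ z, hm z⟩ : W))
      fun z z' h => hφ (congrArg Subtype.val h))
  obtain ⟨e, he⟩ := exists_surjective_nat (ℕ → Bool)
  obtain ⟨n, hn⟩ := he fun i => !(e i i)
  have := congrFun hn n
  simp at this

theorem not_cantor (c0 : COset G) (hacc : c0.1 ∈ derivedSet (COset G))
    (hU : ∃ U ∈ 𝓝 c0, U.Countable) : ¬ Nonempty (derivedSet (COset G) ≃ₜ (ℕ → Bool)) := by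
  rintro ⟨h⟩
  obtain ⟨U, hU, hc⟩ := hU
  obtain ⟨V, hVU, hV, hc0⟩ := mem_nhds_iff.1 hU
  have hsub : derivedSet (COset G) ⊆ COset G :=
    (derivedSet_subset_closure _).trans isClosed_CO.closure_subset
  let ι : derivedSet (COset G) → COset G := Set.inclusion hsub
  have hW : IsOpen (h '' (ι ⁻¹' V)) :=
    h.isOpenMap _ (hV.preimage (continuous_inclusion hsub))
  refine cantor_open hW (x := h ⟨c0.1, hacc⟩) ⟨_, hc0, rfl⟩ ?_
  exact ((hc.mono hVU).preimage_of_injOn (Set.inclusion_injective hsub).injOn).image _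

end Pool.Agent.H111Z.CO
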