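import Pool.Agent.H111Z.CO.LP

/-! The seven generators and their relations; algebraic normal forms. -/

set_option autoImplicit false

namespace Pool.Agent.H111Z.CO

variable {D : Type*} [Group D]

/-- relations among seven elements `n1 n2 m1 m2 d t s` (indices 0 to 6) -/
structure Rel (f : Fin 7 → D) : Prop where
  dn1 : f 4 * f 0 * (f 4)⁻¹ = (f 0)⁻¹
  dn2 : f 4 * f 1 * (f 4)⁻¹ = (f 1)⁻¹
  dm1 : f 4 * f 2 * (f 4)⁻¹ = (f 2)⁻¹
  dm2 : f 4 * f 3 * (f 4)⁻¹ = (f 3)⁻¹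
  m1n1 : Commute (f 2) (f 0)
  m1n2 : Commute (f 2) (f 1)
  m2n1 : Commute (f 3) (f 0)
  m2n2 : Commute (f 3) (f 1)
  tn1 : f 5 * f 0 * (f 5)⁻¹ = f 1
  tn2 : f 5 * f 1 * (f 5)⁻¹ = f 0
  tm1 : Commute (f 5) (f 2)
  tm2 : Commute (f 5) (f 3)
  td : Commute (f 5) (f 4)
  sn1 : Commute (f 6) (f 0)
  sn2 : Commute (f 6) (f 1)
  sm1 : Commute (f 6) (f 2)
  sm2 : Commute (f 6) (f 3)
  sd : Commute (f 6) (f 4)
  st : f 6 * f 5 * (f 6)⁻¹ = (f 5)⁻¹

theorem sq_of_inv {a n : D} (h : a * n * a⁻¹ = n⁻¹) : a * n * (a * n) = a * a := by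
  have h' : a * n = n⁻¹ * a := by rw [← h]; simp
  calc a * n * (a * n) = a * n * (n⁻¹ * a) := by rw [← h']
    _ = a * a := by simp [mul_assoc]

theorem inv_conj_of_inv {a n : D} (h : a * n * a⁻¹ = n⁻¹) : a⁻¹ * n * a = n⁻¹ := by
  have h2 : a * n⁻¹ * a⁻¹ = n := by
    have := congrArg Inv.inv h
    simpa [mul_assoc] using this
  conv_lhs => rw [← h2]
  simp [mul_assoc]

theorem comm_sq_of_inv {a n : D} (h : a * n * a⁻¹ = n⁻¹) : Commute (a * a) n := by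
  have h2 : a * n⁻¹ * a⁻¹ = n := by
    have := congrArg Inv.inv h
    simpa [mul_assoc] using this
  have : a * a * n * (a * a)⁻¹ = n := by
    calc a * a * n * (a * a)⁻¹ = a * (a * n * a⁻¹) * a⁻¹ := by simp [mul_assoc]
      _ = n := by rw [h, h2]
  show a * a * n = n * (a * a)
  conv_rhs => rw [← this]
  simp [mul_assoc]

theorem conj_of_comm {a n : D} (h : Commute a n) : a * n * a⁻¹ = n := by rw [h.eq]; simp
theorem conj_of_comm' {a n : D} (h : Commute a n) : a⁻¹ * n * a = n := by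
  rw [mul_assoc, ← h.eq]; simp

namespace Rel

variable {f : Fin 7 → D} (R : Rel f)

def ah (f : Fin 7 → D) : D := (f 3)⁻¹ * f 2 * f 4

include R in
theorem ahn1 : ah f * f 0 * (ah f)⁻¹ = (f 0)⁻¹ := by
  calc ah f * f 0 * (ah f)⁻¹ = (f 3)⁻¹ * (f 2 * (f 4 * f 0 * (f 4)⁻¹) * (f 2)⁻¹) * f 3 := by
        simp [ah, mul_assoc]
    _ = (f 0)⁻¹ := by rw [R.dn1, conj_of_comm R.m1n1.inv_right, conj_of_comm' R.m2n1.inv_right]

include R in
theorem ahn2 : ah f * f 1 * (ah f)⁻¹ = (f 1)⁻¹ := by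
  calc ah f * f 1 * (ah f)⁻¹ = (f 3)⁻¹ * (f 2 * (f 4 * f 1 * (f 4)⁻¹) * (f 2)⁻¹) * f 3 := by
        simp [ah, mul_assoc]
    _ = (f 1)⁻¹ := by rw [R.dn2, conj_of_comm R.m1n2.inv_right, conj_of_comm' R.m2n2.inv_right]

/-- the lower copy -/
def T1 : Tri D := ⟨ah f, ah f * f 0, ah f * f 1, sq_of_inv R.ahn1, sq_of_inv R.ahn2⟩
/-- the upper copy -/
def T2 : Tri D := ⟨f 4, f 4 * f 2, f 4 * f 3, sq_of_inv R.dm1, sq_of_inv R.dm2⟩

theorem y2_eq : R.T2.y = (ah f)⁻¹ := by simp [T2, Tri.y, ah, mul_assoc]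
theorem y1_eq : R.T1.y = (ah f)⁻¹ * (f 0)⁻¹ * f 1 := by simp [T1, Tri.y, mul_assoc]
theorem z2_eq : R.T2.z = f 4 * f 4 := rfl
theorem z1_eq : R.T1.z = ah f * ah f := rfl

def N (f : Fin 7 → D) : Subgroup D := Subgroup.closure {f 0, f 1}
def G (f : Fin 7 → D) : Subgroup D := Subgroup.closure {f 0, f 1, f 2, f 3, f 4}
def L (f : Fin 7 → D) : Subgroup D := Subgroup.closure {f 0, f 1, f 2, f 3, f 4, f 5}

theorem n1N : f 0 ∈ N f := Subgroup.subset_closure (by simp)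
theorem n2N : f 1 ∈ N f := Subgroup.subset_closure (by simp)

include R in
theorem tn1' : (f 5)⁻¹ * f 0 * f 5 = f 1 := by
  conv_lhs => rw [← R.tn2]
  simp [mul_assoc]
include R in
theorem tn2' : (f 5)⁻¹ * f 1 * f 5 = f 0 := by
  conv_lhs => rw [← R.tn1]
  simp [mul_assoc]

include R in
theorem N_normal (hgen : Subgroup.closure (Set.range f) = ⊤) : (N f).Normal := by
  have h0 : f 0 ∈ N f := n1N
  have h1 : f 1 ∈ N f := n2N
  refine normal_of_gens hgen rfl ?_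
  intro i s hs
  simp only [Set.mem_insert_iff, Set.mem_singleton_iff] at hs
  have hin : ∀ x ∈ N f, ∀ s ∈ N f, x * s * x⁻¹ ∈ N f ∧ x⁻¹ * s * x ∈ N f := fun x hx s hs =>
    ⟨mul_mem (mul_mem hx hs) (inv_mem hx), mul_mem (mul_mem (inv_mem hx) hs) hx⟩
  have hc : ∀ x s, Commute x s → s ∈ N f → x * s * x⁻¹ ∈ N f ∧ x⁻¹ * s * x ∈ N f :=
    fun x s h hs => by rw [conj_of_comm h, conj_of_comm' h]; exact ⟨hs, hs⟩
  have hi : ∀ x s, x * s * x⁻¹ = s⁻¹ → s ∈ N f → x * s * x⁻¹ ∈ N f ∧ x⁻¹ * s * x ∈ N f :=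
    fun x s h hs => by rw [h, inv_conj_of_inv h]; exact ⟨inv_mem hs, inv_mem hs⟩
  fin_cases i <;> rcases hs with rfl | rfl
  · exact hin _ h0 _ h0
  · exact hin _ h0 _ h1
  · exact hin _ h1 _ h0
  · exact hin _ h1 _ h1
  · exact hc _ _ R.m1n1 h0
  · exact hc _ _ R.m1n2 h1
  · exact hc _ _ R.m2n1 h0
  · exact hc _ _ R.m2n2 h1
  · exact hi _ _ R.dn1 h0
  · exact hi _ _ R.dn2 h1
  · show f 5 * f 0 * (f 5)⁻¹ ∈ N f ∧ (f 5)⁻¹ * f 0 * f 5 ∈ N f
    rw [R.tn1, R.tn1']; exact ⟨h1, h1⟩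
  · show f 5 * f 1 * (f 5)⁻¹ ∈ N f ∧ (f 5)⁻¹ * f 1 * f 5 ∈ N f
    rw [R.tn2, R.tn2']; exact ⟨h0, h0⟩
  · exact hc _ _ R.sn1 h0
  · exact hc _ _ R.sn2 h1

include R in
theorem G_normal (hgen : Subgroup.closure (Set.range f) = ⊤) : (G f).Normal := by
  have h0 : f 0 ∈ G f := Subgroup.subset_closure (by simp)
  have h1 : f 1 ∈ G f := Subgroup.subset_closure (by simp)
  have h2 : f 2 ∈ G f := Subgroup.subset_closure (by simp)
  have h3 : f 3 ∈ G f := Subgroup.subset_closure (by simp)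
  have h4 : f 4 ∈ G f := Subgroup.subset_closure (by simp)
  refine normal_of_gens hgen rfl ?_
  intro i s hs
  have hsG : s ∈ G f := Subgroup.subset_closure hs
  simp only [Set.mem_insert_iff, Set.mem_singleton_iff] at hs
  have hin : ∀ x ∈ G f, x * s * x⁻¹ ∈ G f ∧ x⁻¹ * s * x ∈ G f := fun x hx =>
    ⟨mul_mem (mul_mem hx hsG) (inv_mem hx), mul_mem (mul_mem (inv_mem hx) hsG) hx⟩
  have hc : ∀ x, Commute x s → x * s * x⁻¹ ∈ G f ∧ x⁻¹ * s * x ∈ G f :=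
    fun x h => by rw [conj_of_comm h, conj_of_comm' h]; exact ⟨hsG, hsG⟩
  fin_cases i
  · exact hin _ h0
  · exact hin _ h1
  · exact hin _ h2
  · exact hin _ h3
  · exact hin _ h4
  · rcases hs with rfl | rfl | rfl | rfl | rfl
    · show f 5 * f 0 * (f 5)⁻¹ ∈ G f ∧ (f 5)⁻¹ * f 0 * f 5 ∈ G f
      rw [R.tn1, R.tn1']; exact ⟨h1, h1⟩
    · show f 5 * f 1 * (f 5)⁻¹ ∈ G f ∧ (f 5)⁻¹ * f 1 * f 5 ∈ G f
      rw [R.tn2, R.tn2']; exact ⟨h0, h0⟩
    · exact hc _ R.tm1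
    · exact hc _ R.tm2
    · exact hc _ R.td
  · rcases hs with rfl | rfl | rfl | rfl | rfl
    · exact hc _ R.sn1
    · exact hc _ R.sn2
    · exact hc _ R.sm1
    · exact hc _ R.sm2
    · exact hc _ R.sd

include R in
theorem L_normal (hgen : Subgroup.closure (Set.range f) = ⊤) : (L f).Normal := by
  have h0 : f 0 ∈ L f := Subgroup.subset_closure (by simp)
  have h1 : f 1 ∈ L f := Subgroup.subset_closure (by simp)
  have h2 : f 2 ∈ L f := Subgroup.subset_closure (by simp)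
  have h3 : f 3 ∈ L f := Subgroup.subset_closure (by simp)
  have h4 : f 4 ∈ L f := Subgroup.subset_closure (by simp)
  have h5 : f 5 ∈ L f := Subgroup.subset_closure (by simp)
  refine normal_of_gens hgen rfl ?_
  intro i s hs
  have hsG : s ∈ L f := Subgroup.subset_closure hs
  simp only [Set.mem_insert_iff, Set.mem_singleton_iff] at hs
  have hin : ∀ x ∈ L f, x * s * x⁻¹ ∈ L f ∧ x⁻¹ * s * x ∈ L f := fun x hx =>
    ⟨mul_mem (mul_mem hx hsG) (inv_mem hx), mul_mem (mul_mem (inv_mem hx) hsG) hx⟩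
  have hc : ∀ x, Commute x s → x * s * x⁻¹ ∈ L f ∧ x⁻¹ * s * x ∈ L f :=
    fun x h => by rw [conj_of_comm h, conj_of_comm' h]; exact ⟨hsG, hsG⟩
  fin_cases i
  · exact hin _ h0
  · exact hin _ h1
  · exact hin _ h2
  · exact hin _ h3
  · exact hin _ h4
  · exact hin _ h5
  · rcases hs with rfl | rfl | rfl | rfl | rfl | rfl
    · exact hc _ R.sn1
    · exact hc _ R.sn2
    · exact hc _ R.sm1
    · exact hc _ R.sm2
    · exact hc _ R.sd
    · show f 6 * f 5 * (f 6)⁻¹ ∈ L f ∧ (f 6)⁻¹ * f 5 * f 6 ∈ L f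
      rw [R.st, inv_conj_of_inv R.st]; exact ⟨inv_mem h5, inv_mem h5⟩

theorem dK : f 4 ∈ R.T2.K := R.T2.aK
theorem m1K : f 2 ∈ R.T2.K := by
  have := mul_mem (inv_mem R.T2.aK) R.T2.bK
  simpa [T2] using this
theorem m2K : f 3 ∈ R.T2.K := by
  have := mul_mem (inv_mem R.T2.aK) R.T2.cK
  simpa [T2] using this
theorem N_le_K1 : N f ≤ R.T1.K := by
  refine (Subgroup.closure_le _).2 ?_
  intro x hx
  simp only [Set.mem_insert_iff, Set.mem_singleton_iff] at hx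
  rcases hx with rfl | rfl
  · have := mul_mem (inv_mem R.T1.aK) R.T1.bK
    simpa [T1] using this
  · have := mul_mem (inv_mem R.T1.aK) R.T1.cK
    simpa [T1] using this

theorem N_le_G : N f ≤ G f := Subgroup.closure_mono (by
  intro x hx
  simp only [Set.mem_insert_iff, Set.mem_singleton_iff] at hx ⊢
  tauto)
theorem G_le_L : G f ≤ L f := Subgroup.closure_mono (by
  intro x hx
  simp only [Set.mem_insert_iff, Set.mem_singleton_iff] at hx ⊢
  tauto)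
theorem K2_le_G : R.T2.K ≤ G f := by
  have h2 : f 2 ∈ G f := Subgroup.subset_closure (by simp)
  have h3 : f 3 ∈ G f := Subgroup.subset_closure (by simp)
  have h4 : f 4 ∈ G f := Subgroup.subset_closure (by simp)
  refine (Subgroup.closure_le _).2 ?_
  intro x hx
  simp only [Set.mem_insert_iff, Set.mem_singleton_iff] at hx
  rcases hx with rfl | rfl | rfl
  · exact h4
  · exact mul_mem h4 h2
  · exact mul_mem h4 h3

theorem nf_G (hgen : Subgroup.closure (Set.range f) = ⊤) {x : D} (hx : x ∈ G f) :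
    ∃ n ∈ N f, ∃ g ∈ R.T2.K, x = n * g := by
  haveI := R.N_normal hgen
  have : G f ≤ N f ⊔ R.T2.K := by
    refine (Subgroup.closure_le _).2 ?_
    intro x hx
    simp only [Set.mem_insert_iff, Set.mem_singleton_iff] at hx
    rcases hx with rfl | rfl | rfl | rfl | rfl
    · exact Subgroup.mem_sup_left n1N
    · exact Subgroup.mem_sup_left n2N
    · exact Subgroup.mem_sup_right R.m1K
    · exact Subgroup.mem_sup_right R.m2K
    · exact Subgroup.mem_sup_right R.dK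
  obtain ⟨n, hn, g, hg, e⟩ := Subgroup.mem_sup_of_normal_left.1 (this hx)
  exact ⟨n, hn, g, hg, e.symm⟩

include R in
theorem nf_L (hgen : Subgroup.closure (Set.range f) = ⊤) {x : D} (hx : x ∈ L f) :
    ∃ g ∈ G f, ∃ k : ℤ, x = g * f 5 ^ k := by
  haveI := R.G_normal hgen
  have : L f ≤ G f ⊔ Subgroup.zpowers (f 5) := by
    refine (Subgroup.closure_le _).2 ?_
    intro x hx
    simp only [Set.mem_insert_iff, Set.mem_singleton_iff] at hx
    rcases hx with rfl | rfl | rfl | rfl | rfl | rfl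
    · exact Subgroup.mem_sup_left (Subgroup.subset_closure (by simp))
    · exact Subgroup.mem_sup_left (Subgroup.subset_closure (by simp))
    · exact Subgroup.mem_sup_left (Subgroup.subset_closure (by simp))
    · exact Subgroup.mem_sup_left (Subgroup.subset_closure (by simp))
    · exact Subgroup.mem_sup_left (Subgroup.subset_closure (by simp))
    · exact Subgroup.mem_sup_right (Subgroup.mem_zpowers _)
  obtain ⟨n, hn, g, ⟨k, rfl⟩, e⟩ := Subgroup.mem_sup_of_normal_left.1 (this hx)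
  exact ⟨n, hn, k, e.symm⟩

include R in
theorem nf_top (hgen : Subgroup.closure (Set.range f) = ⊤) (x : D) :
    ∃ l ∈ L f, ∃ k : ℤ, x = l * f 6 ^ k := by
  haveI := R.L_normal hgen
  have : (⊤ : Subgroup D) ≤ L f ⊔ Subgroup.zpowers (f 6) := by
    rw [← hgen]
    refine (Subgroup.closure_le _).2 ?_
    rintro x ⟨i, rfl⟩
    fin_cases i
    · exact Subgroup.mem_sup_left (Subgroup.subset_closure (by simp))
    · exact Subgroup.mem_sup_left (Subgroup.subset_closure (by simp))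
    · exact Subgroup.mem_sup_left (Subgroup.subset_closure (by simp))
    · exact Subgroup.mem_sup_left (Subgroup.subset_closure (by simp))
    · exact Subgroup.mem_sup_left (Subgroup.subset_closure (by simp))
    · exact Subgroup.mem_sup_left (Subgroup.subset_closure (by simp))
    · exact Subgroup.mem_sup_right (Subgroup.mem_zpowers _)
  obtain ⟨n, hn, g, ⟨k, rfl⟩, e⟩ := Subgroup.mem_sup_of_normal_left.1 (this (Subgroup.mem_top x))
  exact ⟨n, hn, k, e.symm⟩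

/-- `γ = y² ζ` of the lower copy -/
def ga : D := R.T1.y * R.T1.y * R.T1.z

theorem ga_mem (hgen : Subgroup.closure (Set.range f) = ⊤) : R.ga ∈ N f := by
  have hN := R.N_normal hgen
  have hw : (f 0)⁻¹ * f 1 ∈ N f := mul_mem (inv_mem n1N) n2N
  have e : R.ga = ((ah f)⁻¹ * ((f 0)⁻¹ * f 1) * (ah f)⁻¹⁻¹) *
      ((ah f * ah f)⁻¹ * ((f 0)⁻¹ * f 1) * (ah f * ah f)⁻¹⁻¹) := by
    simp [ga, y1_eq, z1_eq, mul_assoc]
  rw [e]; exact mul_mem (hN.conj_mem _ hw _) (hN.conj_mem _ hw _)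

include R in
theorem comm_N {v : D} (h0 : Commute v (f 0)) (h1 : Commute v (f 1)) {n : D} (hn : n ∈ N f) :
    Commute v n := by
  induction hn using Subgroup.closure_induction with
  | mem x hx =>
    simp only [Set.mem_insert_iff, Set.mem_singleton_iff] at hx
    rcases hx with rfl | rfl <;> assumption
  | one => exact Commute.one_right _
  | mul x y _ _ hx hy => exact hx.mul_right hy
  | inv x _ hx => exact hx.inv_right

theorem tK {g : D} (hg : g ∈ R.T2.K) : Commute (f 5) g :=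
  R.T2.comm_K R.td (R.td.mul_right R.tm1) (R.td.mul_right R.tm2) hg

/-- `u = ζ₂^{-n} t` -/
def u (n : ℤ) : D := (R.T2.z ^ n)⁻¹ * f 5

theorem uK (n : ℤ) {g : D} (hg : g ∈ R.T2.K) : Commute (R.u n) g :=
  ((R.T2.zK_comm hg).zpow_left n).inv_left.mul_left (R.tK hg)

theorem ahK : ah f ∈ R.T2.K := by
  have := inv_mem R.T2.yK
  rwa [y2_eq, inv_inv] at this

theorem u_conj (n : ℤ) : (ah f)⁻¹ * R.u n * R.T1.y * ((ah f)⁻¹ * R.u n)⁻¹ =
    R.T1.z⁻¹ * R.T1.y⁻¹ := by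
  have c0 : Commute (R.T2.z ^ n)⁻¹ (f 0) := ((comm_sq_of_inv R.dn1).zpow_left n).inv_left
  have c1 : Commute (R.T2.z ^ n)⁻¹ (f 1) := ((comm_sq_of_inv R.dn2).zpow_left n).inv_left
  have e0 : R.u n * f 0 * (R.u n)⁻¹ = f 1 := by
    calc R.u n * f 0 * (R.u n)⁻¹ =
        (R.T2.z ^ n)⁻¹ * (f 5 * f 0 * (f 5)⁻¹) * (R.T2.z ^ n)⁻¹⁻¹ := by simp [u, mul_assoc]
      _ = f 1 := by rw [R.tn1, conj_of_comm c1]
  have e1 : R.u n * f 1 * (R.u n)⁻¹ = f 0 := by
    calc R.u n * f 1 * (R.u n)⁻¹ =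
        (R.T2.z ^ n)⁻¹ * (f 5 * f 1 * (f 5)⁻¹) * (R.T2.z ^ n)⁻¹⁻¹ := by simp [u, mul_assoc]
      _ = f 0 := by rw [R.tn2, conj_of_comm c0]
  have ea : R.u n * (ah f)⁻¹ * (R.u n)⁻¹ = (ah f)⁻¹ := conj_of_comm (R.uK n R.ahK).inv_right
  calc (ah f)⁻¹ * R.u n * R.T1.y * ((ah f)⁻¹ * R.u n)⁻¹
      = (ah f)⁻¹ * ((R.u n * (ah f)⁻¹ * (R.u n)⁻¹) * (R.u n * f 0 * (R.u n)⁻¹)⁻¹ *
        (R.u n * f 1 * (R.u n)⁻¹)) * ah f := by simp [y1_eq, mul_assoc]
    _ = R.T1.z⁻¹ * R.T1.y⁻¹ := by rw [ea, e0, e1]; simp [y1_eq, z1_eq, mul_assoc]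

theorem u_comm_z1 (n : ℤ) : Commute ((ah f)⁻¹ * R.u n) R.T1.z := by
  have h1 : Commute (R.u n) (ah f) := R.uK n R.ahK
  have h2 : Commute (ah f)⁻¹ (ah f) := (Commute.refl _).inv_left
  exact (h2.mul_left h1).mul_right (h2.mul_left h1)

theorem nf_Lu (hgen : Subgroup.closure (Set.range f) = ⊤) (n0 : ℤ) {x : D} (hx : x ∈ L f) :
    ∃ n ∈ N f, ∃ g ∈ R.T2.K, ∃ k : ℤ, x = n * g * R.u n0 ^ k := by
  obtain ⟨g0, hg0, k, rfl⟩ := R.nf_L hgen hx
  obtain ⟨n, hn, g, hg, rfl⟩ := R.nf_G hgen hg0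
  have hz : R.T2.z ^ n0 ∈ R.T2.K := zpow_mem R.T2.zK _
  refine ⟨n, hn, g * (R.T2.z ^ n0) ^ k, mul_mem hg (zpow_mem hz _), k, ?_⟩
  have : f 5 = R.T2.z ^ n0 * R.u n0 := by simp [u]
  rw [this, (R.uK n0 hz).symm.mul_zpow]; simp [mul_assoc]

end Rel

end Pool.Agent.H111Z.CO
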