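import Pool.Agent.H111Z.CO.Ext

/-! Circular orders from left orders of an index two subgroup. -/

set_option autoImplicit false

namespace Pool.Agent.H111Z.CO

open Classical Filter Topology

variable {G : Type*} [Group G]

/-- a closed positive cone of an index two subgroup -/
structure Cone2 (L : Subgroup G) (C : G → Prop) : Prop where
  idx : ∀ x y, x * y ∈ L ↔ (x ∈ L ↔ y ∈ L)
  mul : ∀ x ∈ L, ∀ y ∈ L, C x → C y → C (x * y)
  tot : ∀ x ∈ L, C x ∨ C x⁻¹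
  anti : ∀ x ∈ L, C x → C x⁻¹ → x = 1

noncomputable def nu (L : Subgroup G) (C : G → Prop) (g : G) : ℤ :=
  if g ∈ L ∧ ¬ C g then -1 else 0
noncomputable def fz (L : Subgroup G) (g h : G) : ℤ := if g ∉ L ∧ h ∉ L then 1 else 0
noncomputable def ff (L : Subgroup G) (C : G → Prop) (g h : G) : ℤ :=
  fz L g h + nu L C (g * h) - nu L C g - nu L C h
noncomputable def cc (L : Subgroup G) (C : G → Prop) (x y z : G) : ℤ :=
  1 - 2 * ff L C (x⁻¹ * y) (y⁻¹ * z) - dl (x⁻¹ * y) - dl (y⁻¹ * z) + dl (x⁻¹ * z)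

namespace Cone2

variable {L : Subgroup G} {C : G → Prop} (H : Cone2 L C)
include H

theorem one : C 1 := by simpa using H.tot 1 (one_mem _)
theorem nu_one : nu L C 1 = 0 := by simp [nu, H.one]

theorem ff_mem (g h : G) : ff L C g h = 0 ∨ ff L C g h = 1 := by
  have hi := H.idx g h
  unfold ff fz nu
  by_cases hg : g ∈ L <;> by_cases hh : h ∈ L
  · have hgh : g * h ∈ L := mul_mem hg hh
    have a1 := H.mul g hg h hh
    have a2 : ¬ C g → C (g * h) → C h := fun n1 n2 => by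
      simpa using H.mul _ (inv_mem hg) _ hgh ((H.tot g hg).resolve_left n1) n2
    by_cases c1 : C g <;> by_cases c2 : C h <;> by_cases c3 : C (g * h) <;> simp_all
  · by_cases c1 : C g <;> simp_all
  · by_cases c1 : C h <;> simp_all
  · by_cases c1 : C (g * h) <;> simp_all

theorem ff_inv {g : G} (hg : g ≠ 1) : ff L C g g⁻¹ = 1 := by
  unfold ff
  rw [mul_inv_cancel, H.nu_one]
  unfold fz nu
  by_cases h : g ∈ L
  · have a1 := H.tot g h
    have a2 := H.anti g h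
    by_cases c1 : C g <;> by_cases c2 : C g⁻¹ <;> simp_all
  · simp [h]

theorem ff_one_left (h : G) : ff L C 1 h = 0 := by simp [ff, fz, H.nu_one]
theorem ff_one_right (h : G) : ff L C h 1 = 0 := by simp [ff, fz, H.nu_one]

theorem fz_cocycle (g h k : G) : fz L g h + fz L (g * h) k = fz L h k + fz L g (h * k) := by
  have a1 := H.idx g h
  have a2 := H.idx h k
  unfold fz
  by_cases hg : g ∈ L <;> by_cases hh : h ∈ L <;> by_cases hk : k ∈ L <;> simp_all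

theorem cc_cases (x y z : G) : (cc L C x y z = 0 ∧ (x = y ∨ y = z ∨ x = z)) ∨
    ((cc L C x y z = 1 ∨ cc L C x y z = -1) ∧ ¬ (x = y ∨ y = z ∨ x = z)) := by
  unfold cc
  by_cases e1 : x = y
  · subst e1; left; simp [H.ff_one_left, dl]
  by_cases e2 : y = z
  · subst e2; left; simp [H.ff_one_right, dl]
  by_cases e3 : x = z
  · subst e3; left
    have h1 : x⁻¹ * y ≠ 1 := fun h => e1 (inv_mul_eq_one.1 h)
    have h2 := H.ff_inv h1
    rw [mul_inv_rev, inv_inv] at h2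
    simp [h2, dl, inv_mul_eq_one, e1, e2]
  · right
    have := H.ff_mem (x⁻¹ * y) (y⁻¹ * z)
    simp only [dl, inv_mul_eq_one, e1, e2, e3, if_false, or_self, not_false_iff, and_true]
    omega

theorem cc_mem : cc L C ∈ COset G := by
  refine ⟨fun a b d => ?_, fun a b d => ?_, fun a b d e => ?_, fun g a b d => ?_⟩
  · rcases H.cc_cases a b d with h | h <;> tauto
  · rcases H.cc_cases a b d with h | ⟨h | h, h'⟩
    · tauto
    · rw [h]; simp only [h', iff_false]; omega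
    · rw [h]; simp only [h', iff_false]; omega
  · have := H.fz_cocycle (a⁻¹ * b) (b⁻¹ * d) (d⁻¹ * e)
    simp only [cc, ff, mul_assoc, mul_inv_cancel_left] at this ⊢
    omega
  · simp [cc, mul_assoc]

theorem fc_cc (g h : G) : fc (cc L C) g h = ff L C g h := by
  have := (fc_spec H.cc_mem g h).1
  simp only [cc, inv_one, one_mul, inv_mul_cancel_left] at this
  omega

/-- the circular order as a point of the space -/
noncomputable def co : COset G := ⟨cc L C, H.cc_mem⟩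

noncomputable def sec (g : G) : Ext H.co := ⟨nu L C g, g⟩

theorem sec_mul {g h : G} (hh : g ∈ L ∨ h ∈ L) : H.sec g * H.sec h = H.sec (g * h) := by
  ext
  · have : fz L g h = 0 := by unfold fz; rw [if_neg]; tauto
    show nu L C g + nu L C h + fc (cc L C) g h = nu L C (g * h)
    rw [H.fc_cc, ff, this]; ring
  · rfl

theorem sec_one : H.sec 1 = 1 := by
  ext
  · exact H.nu_one
  · rfl

theorem sec_inv {g : G} (hg : g ∈ L) : (H.sec g)⁻¹ = H.sec g⁻¹ := by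
  rw [inv_eq_iff_mul_eq_one, H.sec_mul (Or.inl hg), mul_inv_cancel, H.sec_one]

theorem sec_conj {x y z : G} (h : x * y * x⁻¹ = z) (hy : y ∈ L) (hz : z ∈ L) :
    H.sec x * H.sec y * (H.sec x)⁻¹ = H.sec z := by
  rw [mul_inv_eq_iff_eq_mul, H.sec_mul (Or.inr hy), H.sec_mul (Or.inl hz), ← h]; simp

theorem sec_conj_inv {x y : G} (h : x * y * x⁻¹ = y⁻¹) (hy : y ∈ L) :
    H.sec x * H.sec y * (H.sec x)⁻¹ = (H.sec y)⁻¹ := by
  rw [H.sec_conj h hy (inv_mem hy), H.sec_inv hy]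

theorem sec_comm {x y : G} (h : Commute x y) (hy : y ∈ L) : Commute (H.sec x) (H.sec y) :=
  (comm_iff_conj _ _).2 (H.sec_conj (conj_of_comm h) hy hy)

def Lift (x : Ext H.co) (g : G) : Prop := x = H.sec g ∧ g ∈ L

variable {H}
theorem Lift.mul {x y : Ext H.co} {g h : G} (a : H.Lift x g) (b : H.Lift y h) :
    H.Lift (x * y) (g * h) := ⟨by rw [a.1, b.1, H.sec_mul (Or.inl a.2)], mul_mem a.2 b.2⟩
theorem Lift.inv {x : Ext H.co} {g : G} (a : H.Lift x g) : H.Lift x⁻¹ g⁻¹ :=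
  ⟨by rw [a.1, H.sec_inv a.2], inv_mem a.2⟩
theorem Lift.pos {x : Ext H.co} {g : G} (a : H.Lift x g) (h : ¬ C g⁻¹) :
    (Ext.lp H.co).lt 1 x := by
  have := a.inv
  simp only [LP.lt, Ext.lp, mul_one, this.1, sec, nu, this.2, h]
  simp
variable (H)

theorem countable {g0 : Fin 7 → G} (hg : Subgroup.closure (Set.range g0) = ⊤) (R : Rel g0)
    (m0 : g0 0 ∈ L) (m1 : g0 1 ∈ L) (m2 : g0 2 ∈ L) (m3 : g0 3 ∈ L) (m4 : g0 4 ∈ L)
    (m5 : g0 5 ∈ L) (m6 : g0 6 ∉ L) (hs : g0 6 * g0 6 = 1)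
    (p1 : ¬ C R.T1.a⁻¹) (p2 : ¬ C R.T1.b⁻¹) (p3 : ¬ C R.T1.y⁻¹) (p4 : ¬ C R.T2.a⁻¹)
    (p5 : ¬ C R.T2.b⁻¹) (p6 : ¬ C (R.ga⁻¹ * g0 2)⁻¹) (p7 : ¬ C (R.T2.z⁻¹ * g0 5)⁻¹) :
    ∃ U ∈ 𝓝 H.co, U.Countable := by
  have R' : Rel (lf g0 (fun i => nu L C (g0 i)) H.co) :=
    ⟨H.sec_conj_inv R.dn1 m0, H.sec_conj_inv R.dn2 m1, H.sec_conj_inv R.dm1 m2,
      H.sec_conj_inv R.dm2 m3, H.sec_comm R.m1n1 m0, H.sec_comm R.m1n2 m1, H.sec_comm R.m2n1 m0,
      H.sec_comm R.m2n2 m1, H.sec_conj R.tn1 m0 m1, H.sec_conj R.tn2 m1 m0, H.sec_comm R.tm1 m2,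
      H.sec_comm R.tm2 m3, H.sec_comm R.td m4, H.sec_comm R.sn1 m0, H.sec_comm R.sn2 m1,
      H.sec_comm R.sm1 m2, H.sec_comm R.sm2 m3, H.sec_comm R.sd m4, H.sec_conj_inv R.st m5⟩
  have l : ∀ i, g0 i ∈ L → H.Lift (lf g0 (fun i => nu L C (g0 i)) H.co i) (g0 i) :=
    fun i hi => ⟨rfl, hi⟩
  have la : H.Lift R'.T1.a R.T1.a := ((l 3 m3).inv.mul (l 2 m2)).mul (l 4 m4)
  have lb : H.Lift R'.T1.b R.T1.b := la.mul (l 0 m0)
  have lc : H.Lift R'.T1.c R.T1.c := la.mul (l 1 m1)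
  have ly : H.Lift R'.T1.y R.T1.y := (la.inv.mul lb.inv).mul lc
  have lg : H.Lift R'.ga R.ga := (ly.mul ly).mul (la.mul la)
  have n6 : nu L C (g0 6) = 0 := by simp [nu, m6]
  refine countable_nhds g0 _ hg H.co R' ⟨la.pos p1, lb.pos p2, ly.pos p3, (l 4 m4).pos p4,
    ((l 4 m4).mul (l 2 m2)).pos p5, (lg.inv.mul (l 2 m2)).pos p6,
    (((l 4 m4).mul (l 4 m4)).inv.mul (l 5 m5)).pos p7, ?_⟩ ?_
  · have m6' : (g0 6)⁻¹ ∉ L := fun h => m6 (by simpa using h)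
    show ¬ 0 ≤ ((H.sec (g0 6))⁻¹ * 1).k
    rw [mul_one, Ext.inv_k]
    show ¬ 0 ≤ -nu L C (g0 6) - fc (cc L C) (g0 6)⁻¹ (g0 6)
    rw [H.fc_cc]
    simp [ff, fz, nu, m6, H.one]
  · ext
    · show nu L C (g0 6) + nu L C (g0 6) + fc (cc L C) (g0 6) (g0 6) = 1
      rw [H.fc_cc]
      simp [ff, fz, m6, hs, n6, H.nu_one]
    · exact hs

end Cone2

theorem acc_of_tendsto {L : Subgroup G} {C : G → Prop} {Cn : ℕ → G → Prop}
    (Hn : ∀ n, Cone2 L (Cn n)) (hlim : ∀ x ∈ L, ∀ᶠ n in atTop, Cn n x ↔ C x) {s : G} (hs : s ∉ L)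
    (hne : ∀ n, ∃ x ∈ L, Cn n x ∧ ¬ C x) : cc L C ∈ derivedSet (COset G) := by
  rw [mem_derivedSet, accPt_iff_frequently]
  have hnu : ∀ x, ∀ᶠ n in atTop, nu L (Cn n) x = nu L C x := by
    intro x
    by_cases hx : x ∈ L
    · filter_upwards [hlim x hx] with n hn
      simp [nu, hn]
    · simp [nu, hx]
  have ht : Tendsto (fun n => cc L (Cn n)) atTop (𝓝 (cc L C)) := by
    refine tendsto_pi_nhds.2 fun x => tendsto_pi_nhds.2 fun y => tendsto_pi_nhds.2 fun z => ?_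
    refine tendsto_const_nhds.congr' ?_
    filter_upwards [hnu (x⁻¹ * y), hnu (y⁻¹ * z), hnu (x⁻¹ * y * (y⁻¹ * z))] with n h1 h2 h3
    simp only [cc, ff, h1, h2, h3]
  refine ht.frequently (Eventually.frequently (Eventually.of_forall fun n => ⟨?_, (Hn n).cc_mem⟩))
  obtain ⟨x, hx, h1, h2⟩ := hne n
  intro h
  have := congrFun (congrFun (congrFun h 1) x) (x * s)
  have hxs : x * s ∉ L := fun h => hs (by simpa using mul_mem (inv_mem hx) h)
  simp [cc, ff, nu, hx, h1, h2, hs, hxs] at this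

end Pool.Agent.H111Z.CO
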