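import Pool.Agent.H111Z.CO.Cone

/-! Left-invariant total preorders on a group. -/

set_option autoImplicit false

namespace Pool.Agent.H111Z.CO

variable {D : Type*} [Group D]

/-- a left-invariant total preorder -/
structure LP (D : Type*) [Group D] where
  le : D → D → Prop
  total : ∀ x y, le x y ∨ le y x
  trans : ∀ {x y z}, le x y → le y z → le x z
  mul : ∀ (g : D) {x y}, le x y → le (g * x) (g * y)

namespace LP

variable (P : LP D)

def lt (x y : D) : Prop := ¬ P.le y x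

theorem refl (x : D) : P.le x x := (P.total x x).elim id id
variable {P}
theorem lt.le {x y : D} (h : P.lt x y) : P.le x y := (P.total x y).resolve_right h
theorem lt_of_lt_of_le {x y z : D} (h1 : P.lt x y) (h2 : P.le y z) : P.lt x z :=
  fun h => h1 (P.trans h2 h)
theorem lt_of_le_of_lt {x y z : D} (h1 : P.le x y) (h2 : P.lt y z) : P.lt x z :=
  fun h => h2 (P.trans h h1)
theorem lt.trans {x y z : D} (h1 : P.lt x y) (h2 : P.lt y z) : P.lt x z :=
  lt_of_lt_of_le h1 h2.le
theorem le_of_mul (g : D) {x y : D} (h : P.le (g * x) (g * y)) : P.le x y := by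
  simpa using P.mul g⁻¹ h
theorem lt.mul {x y : D} (h : P.lt x y) (g : D) : P.lt (g * x) (g * y) :=
  fun h' => h (le_of_mul g h')
theorem lt_of_mul (g : D) {x y : D} (h : P.lt (g * x) (g * y)) : P.lt x y :=
  fun h' => h (P.mul g h')
theorem lt_irrefl (x : D) : ¬ P.lt x x := fun h => h (P.refl x)
theorem le_mul_right (x : D) {w : D} (h : P.le 1 w) : P.le x (x * w) := by
  simpa using P.mul x h
theorem mul_le_right (x : D) {w : D} (h : P.le w 1) : P.le (x * w) x := by
  simpa using P.mul x h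
theorem lt_mul_right (x : D) {w : D} (h : P.lt 1 w) : P.lt x (x * w) := by
  simpa using h.mul x
theorem inv_le_one {w : D} (h : P.le 1 w) : P.le w⁻¹ 1 := by simpa using P.mul w⁻¹ h
theorem one_le_inv {w : D} (h : P.le w 1) : P.le 1 w⁻¹ := by simpa using P.mul w⁻¹ h
theorem inv_lt_one {w : D} (h : P.lt 1 w) : P.lt w⁻¹ 1 := by simpa using h.mul w⁻¹
theorem one_lt_inv {w : D} (h : P.lt w 1) : P.lt 1 w⁻¹ := by simpa using h.mul w⁻¹
theorem one_le_mul {x y : D} (hx : P.le 1 x) (hy : P.le 1 y) : P.le 1 (x * y) :=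
  P.trans hx (le_mul_right x hy)
theorem mul_le_one {x y : D} (hx : P.le x 1) (hy : P.le y 1) : P.le (x * y) 1 :=
  P.trans (mul_le_right x hy) hx
theorem one_le_pow {x : D} (hx : P.le 1 x) (k : ℕ) : P.le 1 (x ^ k) := by
  induction k with
  | zero => simpa using P.refl 1
  | succ k ih => rw [pow_succ]; exact one_le_mul ih hx
theorem pow_le_one {x : D} (hx : P.le x 1) (k : ℕ) : P.le (x ^ k) 1 := by
  induction k with
  | zero => simpa using P.refl 1
  | succ k ih => rw [pow_succ]; exact mul_le_one ih hx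
theorem zpow_mono {x : D} (hx : P.le 1 x) {i j : ℤ} (h : i ≤ j) : P.le (x ^ i) (x ^ j) := by
  obtain ⟨n, rfl⟩ := Int.le.dest h
  rw [zpow_add, zpow_natCast]; exact le_mul_right _ (one_le_pow hx n)
theorem zpow_lt {x : D} (hx : P.lt 1 x) {i j : ℤ} (h : i < j) : P.lt (x ^ i) (x ^ j) := by
  have h1 : P.lt (x ^ i) (x ^ (i + 1)) := by rw [zpow_add, zpow_one]; exact lt_mul_right _ hx
  exact lt_of_lt_of_le h1 (zpow_mono hx.le h)
theorem zpow_both {x : D} (h1 : P.le 1 x) (h2 : P.le x 1) (k : ℤ) :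
    P.le 1 (x ^ k) ∧ P.le (x ^ k) 1 := by
  obtain ⟨n, rfl | rfl⟩ := Int.eq_nat_or_neg k
  · rw [zpow_natCast]; exact ⟨one_le_pow h1 n, pow_le_one h2 n⟩
  · rw [zpow_neg, zpow_natCast]; exact ⟨one_le_inv (pow_le_one h2 n), inv_le_one (one_le_pow h1 n)⟩

theorem floor {x q : D} (hx : P.lt 1 x) {i0 i1 : ℤ} (h0 : P.le (x ^ i0) q)
    (h1 : P.le q (x ^ i1)) : ∃ i : ℤ, P.le (x ^ i) q ∧ P.lt q (x ^ (i + 1)) := by
  classical
  obtain ⟨i, hi, hmax⟩ := Int.exists_greatest_of_bdd (P := fun i => P.le (x ^ i) q)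
    ⟨i1, fun z hz => by
      by_contra hc
      exact zpow_lt hx (not_le.1 hc) (P.trans hz h1)⟩ ⟨i0, h0⟩
  exact ⟨i, hi, fun h => by have := hmax _ h; omega⟩

theorem inv_not_hull {m v : D} (hm : P.lt 1 m) (hv : v * m * v⁻¹ = m⁻¹) {i0 i1 : ℤ}
    (h0 : P.le (m ^ i0) v⁻¹) (h1 : P.le v⁻¹ (m ^ i1)) : False := by
  obtain ⟨i, h2, h3⟩ := floor hm h0 h1
  have h4 : P.le (m ^ (i + 1)) (m * v⁻¹) := by
    rw [add_comm, zpow_add, zpow_one]; exact P.mul m h2
  have h5 := (lt_of_lt_of_le h3 h4).mul v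
  rw [mul_inv_cancel, ← mul_assoc, hv] at h5
  exact h5 (inv_lt_one hm).le

theorem comm_pow {g m : D} (hc : Commute g m) (h : P.le g m) (k : ℕ) :
    P.le (g ^ k) (m ^ k) := by
  induction k with
  | zero => simpa using P.refl 1
  | succ k ih =>
    have h1 := P.mul g ih
    rw [← pow_succ', (hc.pow_right k).eq] at h1
    rw [pow_succ m]; exact P.trans h1 (P.mul _ h)

theorem comm_inv {g m : D} (hc : Commute g m) (h : P.le g m) : P.le m⁻¹ g⁻¹ := by
  have := P.mul (g⁻¹ * m⁻¹) h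
  rw [mul_assoc, ← hc.inv_right.eq] at this
  simpa using this

theorem comm_pow_inv {g m : D} (hc : Commute g m) (h : P.le g m) (k : ℕ) :
    P.le (m ^ k)⁻¹ (g ^ k)⁻¹ :=
  comm_inv ((hc.pow_left k).pow_right k) (comm_pow hc h k)

variable (P)

/-- the preorder on cosets of the convex hull of a normal subgroup -/
def quo (N : Subgroup D) (hN : N.Normal) : LP D where
  le x z := ∃ n ∈ N, P.le x (z * n)
  total x z := (P.total x z).elim (fun h => Or.inl ⟨1, one_mem _, by simpa using h⟩)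
    (fun h => Or.inr ⟨1, one_mem _, by simpa using h⟩)
  trans := by
    rintro x z w ⟨n, hn, h1⟩ ⟨n', hn', h2⟩
    refine ⟨(w⁻¹ * z * n * (w⁻¹ * z)⁻¹) * n', mul_mem (hN.conj_mem n hn _) hn', P.trans h1 ?_⟩
    have := P.mul (z * n * z⁻¹) h2
    simpa [mul_assoc] using this
  mul := by
    rintro g x z ⟨n, hn, h⟩
    exact ⟨n, hn, by rw [mul_assoc]; exact P.mul g h⟩

variable {P} {N : Subgroup D} {hN : N.Normal}

theorem quo_le {x z : D} (h : P.le x z) : (P.quo N hN).le x z := ⟨1, one_mem _, by simpa using h⟩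
theorem lt_of_quo {x z : D} (h : (P.quo N hN).lt x z) : P.lt x z := fun h' => h (quo_le h')
theorem quo_left {n : D} (hn : n ∈ N) (x : D) : (P.quo N hN).le (n * x) x :=
  ⟨x⁻¹ * n * x⁻¹⁻¹, hN.conj_mem n hn _, by simpa [mul_assoc] using P.refl (n * x)⟩
theorem quo_left' {n : D} (hn : n ∈ N) (x : D) : (P.quo N hN).le x (n * x) := by
  simpa using quo_left (P := P) (hN := hN) (inv_mem hn) (n * x)
theorem quo_one_le {x : D} (h : (P.quo N hN).le 1 x) : ∃ n ∈ N, P.le n x := by
  obtain ⟨n, hn, h⟩ := h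
  refine ⟨(x * n * x⁻¹)⁻¹, inv_mem (hN.conj_mem n hn _), ?_⟩
  have := P.mul (x * n * x⁻¹)⁻¹ h
  simpa [mul_assoc] using this
theorem quo_le_one {x : D} (h : (P.quo N hN).le x 1) : ∃ n ∈ N, P.le x n := by
  obtain ⟨n, hn, h⟩ := h
  exact ⟨n, hn, by simpa using h⟩

theorem tri_M {T : Tri D} (ha : P.le 1 T.a) (hb : P.le 1 T.b) (hy : P.le 1 T.y) {g : D}
    (hg : g ∈ T.M) : P.le 1 g := by
  induction hg using Submonoid.closure_induction with
  | mem x hx =>
    simp only [Set.mem_insert_iff, Set.mem_singleton_iff] at hx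
    rcases hx with rfl | rfl | rfl <;> assumption
  | one => exact P.refl 1
  | mul x y _ _ hx hy => exact one_le_mul hx hy

theorem tri_le {T : Tri D} (ha : P.le 1 T.a) (hb : P.le 1 T.b) (hy : P.le 1 T.y) {g h : D}
    (hg : T.le g h) : P.le g h := by
  simpa using P.mul g (tri_M ha hb hy hg)

theorem tri_M_lt {T : Tri D} (ha : P.lt 1 T.a) (hb : P.lt 1 T.b) (hy : P.lt 1 T.y) {g : D}
    (hg : g ∈ T.M) : g = 1 ∨ P.lt 1 g := by
  induction hg using Submonoid.closure_induction with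
  | mem x hx =>
    simp only [Set.mem_insert_iff, Set.mem_singleton_iff] at hx
    rcases hx with rfl | rfl | rfl <;> right <;> assumption
  | one => exact Or.inl rfl
  | mul x y _ _ hx hy =>
    rcases hx with rfl | hx
    · simpa using hy
    · rcases hy with rfl | hy
      · right; simpa using hx
      · right; exact lt_of_lt_of_le hx (le_mul_right x hy.le)

end LP

theorem conj_mem_closure {S : Set D} {K : Subgroup D} (hK : K = Subgroup.closure S) {x : D}
    (h : ∀ s ∈ S, x * s * x⁻¹ ∈ K) {n : D} (hn : n ∈ K) : x * n * x⁻¹ ∈ K := by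
  subst hK
  induction hn using Subgroup.closure_induction with
  | mem y hy => exact h y hy
  | one => simp
  | mul y z _ _ hy hz => simpa [mul_assoc] using mul_mem hy hz
  | inv y _ hy => simpa [mul_assoc] using inv_mem hy

theorem normal_of_gens {ι : Type*} {f : ι → D} (hgen : Subgroup.closure (Set.range f) = ⊤)
    {S : Set D} {K : Subgroup D} (hK : K = Subgroup.closure S)
    (h : ∀ i, ∀ s ∈ S, f i * s * (f i)⁻¹ ∈ K ∧ (f i)⁻¹ * s * f i ∈ K) : K.Normal := by
  have key : ∀ x ∈ Subgroup.closure (Set.range f),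
      (∀ n ∈ K, x * n * x⁻¹ ∈ K) ∧ ∀ n ∈ K, x⁻¹ * n * x⁻¹⁻¹ ∈ K := by
    intro x hx
    induction hx using Subgroup.closure_induction with
    | mem y hy =>
      obtain ⟨i, rfl⟩ := hy
      exact ⟨fun n hn => conj_mem_closure hK (fun s hs => (h i s hs).1) hn,
        fun n hn => conj_mem_closure hK (fun s hs => by simpa using (h i s hs).2) hn⟩
    | one => simp
    | mul y z _ _ hy hz =>
      exact ⟨fun n hn => by simpa [mul_assoc] using hy.1 _ (hz.1 n hn),
        fun n hn => by simpa [mul_assoc] using hz.2 _ (hy.2 n hn)⟩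
    | inv y _ hy => exact ⟨hy.2, fun n hn => by simpa using hy.1 n hn⟩
  exact ⟨fun n hn g => (key g (by rw [hgen]; trivial)).1 n hn⟩

end Pool.Agent.H111Z.CO
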