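import Pool.Agent.H111Z.CO.Model

/-! The group and its circular orders. -/

set_option autoImplicit false

namespace Pool.Agent.H111Z.CO

open Classical Filter Topology

@[ext] structure G0 where
  l : Gam
  b : Gam
  k : ℤ
  e : ℤˣ

namespace G0

instance : Mul G0 := ⟨fun x y => ⟨x.l * (th ^ x.k) y.l, x.b * y.b, x.k + x.e * y.k, x.e * y.e⟩⟩
instance : One G0 := ⟨⟨1, 1, 0, 1⟩⟩
instance : Inv G0 := ⟨fun x => ⟨(th ^ x.k) x.l⁻¹, x.b⁻¹, -(x.e * x.k), x.e⟩⟩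

@[simp] theorem mul_l (x y : G0) : (x * y).l = x.l * (th ^ x.k) y.l := rfl
@[simp] theorem mul_b (x y : G0) : (x * y).b = x.b * y.b := rfl
@[simp] theorem mul_k (x y : G0) : (x * y).k = x.k + x.e * y.k := rfl
@[simp] theorem mul_e (x y : G0) : (x * y).e = x.e * y.e := rfl
@[simp] theorem one_l : (1 : G0).l = 1 := rfl
@[simp] theorem one_b : (1 : G0).b = 1 := rfl
@[simp] theorem one_k : (1 : G0).k = 0 := rfl
@[simp] theorem one_e : (1 : G0).e = 1 := rfl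
theorem inv_l' (x : G0) : (x⁻¹).l = (th ^ x.k) x.l⁻¹ := rfl
theorem inv_b' (x : G0) : (x⁻¹).b = x.b⁻¹ := rfl
theorem inv_k' (x : G0) : (x⁻¹).k = -(x.e * x.k) := rfl
theorem inv_e' (x : G0) : (x⁻¹).e = x.e := rfl

instance : Group G0 :=
  Group.ofLeftAxioms
    (fun x y z => by
      ext
      · simp only [mul_l, mul_k, map_mul, zpow_add, th_unit, MulAut.mul_apply, mul_assoc]
      · simp [mul_assoc]
      · simp only [mul_k, mul_e, Units.val_mul]; ring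
      · simp [mul_assoc])
    (fun x => by ext <;> simp)
    (fun x => by
      ext
      · simp only [mul_l, inv_l', inv_k', th_neg, th_unit, one_l, ← map_mul, inv_mul_cancel,
          map_one]
      · simp [inv_b']
      · simp [inv_k', inv_e']
      · simp [inv_e'])

@[simp] theorem inv_l (x : G0) : (x⁻¹).l = (th ^ x.k) x.l⁻¹ := rfl
@[simp] theorem inv_b (x : G0) : (x⁻¹).b = x.b⁻¹ := rfl
@[simp] theorem inv_k (x : G0) : (x⁻¹).k = -(x.e * x.k) := rfl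
@[simp] theorem inv_e (x : G0) : (x⁻¹).e = x.e := rfl

instance : Countable G0 := by
  have : Countable Gam := inferInstanceAs (Countable (Quotient _))
  exact Function.Injective.countable (f := fun x : G0 => (x.l, x.b, x.k, (x.e : ℤ)))
    fun x y h => by
      simp only [Prod.mk.injEq] at h
      exact G0.ext h.1 h.2.1 h.2.2.1 (Units.ext h.2.2.2)

end G0

def gens : Fin 7 → G0 :=
  ![⟨TG.a⁻¹ * TG.b, 1, 0, 1⟩, ⟨TG.a⁻¹ * TG.c, 1, 0, 1⟩, ⟨1, TG.a⁻¹ * TG.b, 0, 1⟩,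
    ⟨1, TG.a⁻¹ * TG.c, 0, 1⟩, ⟨TG.a, TG.a, 0, 1⟩, ⟨1, 1, 1, 1⟩, ⟨1, 1, 0, -1⟩]

theorem e_b : TG.b * TG.a⁻¹ = TG.b⁻¹ * TG.a := by
  rw [TG.ainv, TG.binv, ← mul_assoc, TG.zb.inv_left.eq]
theorem e_c : TG.c * TG.a⁻¹ = TG.c⁻¹ * TG.a := by
  rw [TG.ainv, TG.cinv, ← mul_assoc, TG.zc.inv_left.eq]

theorem rel_gens : Rel gens := by
  constructor
  all_goals
    (try rw [comm_iff_conj])
    ext <;> simp [gens, e_b, e_c, th_inv]

abbrev GG : Type := Subgroup.closure (Set.range gens)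

def gg (i : Fin 7) : GG := ⟨gens i, Subgroup.subset_closure ⟨i, rfl⟩⟩

@[simp] theorem gg_val (i : Fin 7) : (gg i).1 = gens i := rfl

theorem gg_gen : Subgroup.closure (Set.range gg) = ⊤ := by
  have : Set.range gg = ((↑) : GG → G0) ⁻¹' Set.range gens := by
    ext x; constructor
    · rintro ⟨i, rfl⟩; exact ⟨i, rfl⟩
    · rintro ⟨i, hi⟩; exact ⟨i, Subtype.ext hi⟩
  rw [this]; exact Subgroup.closure_closure_coe_preimage

theorem rel_gg : Rel gg := by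
  refine (rel_iff _).2 fun w hw => Subtype.ext ?_
  have h1 := (rel_iff _).1 rel_gens w hw
  have : (Subgroup.subtype _).comp (FreeGroup.lift gg) = FreeGroup.lift gens := by
    ext i : 1; simp [gg]
  rw [← this] at h1
  exact h1

theorem psi_eq (x : GG) : psi x.1.l = psi x.1.b := by
  obtain ⟨x, hx⟩ := x
  induction hx using Subgroup.closure_induction with
  | mem x hx =>
    obtain ⟨i, rfl⟩ := hx
    fin_cases i <;> simp [gens, psi]
  | one => rfl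
  | mul x y _ _ hx hy => simp only [G0.mul_l, G0.mul_b, map_mul, psi_th_zpow] at *; rw [hx, hy]
  | inv x _ hx => simp only [G0.inv_l, G0.inv_b, psi_th_zpow, map_inv] at *; rw [hx]

def LL : Subgroup GG where
  carrier := {x | x.1.e = 1}
  mul_mem' := by
    intro x y hx hy
    simp only [Set.mem_setOf_eq, Subgroup.coe_mul, G0.mul_e] at *
    rw [hx, hy, mul_one]
  one_mem' := rfl
  inv_mem' := by
    intro x hx
    simpa using hx

theorem mem_LL {x : GG} : x ∈ LL ↔ x.1.e = 1 := Iff.rfl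

theorem LL_idx (x y : GG) : x * y ∈ LL ↔ (x ∈ LL ↔ y ∈ LL) := by
  simp only [mem_LL, Subgroup.coe_mul, G0.mul_e]
  rcases Int.units_eq_one_or x.1.e with h | h <;> rcases Int.units_eq_one_or y.1.e with h' | h' <;>
    simp [h, h']

noncomputable def ZZ (n : ℤ) (x : GG) : ℝ := rho x.1.b (9 / 7) + 9 * ((n * x.1.k : ℤ) : ℝ)

def Cn (n : ℕ) (x : GG) : Prop :=
  9 / 7 < ZZ n x ∨ (ZZ n x = 9 / 7 ∧ (0 < x.1.k ∨ (x.1.k = 0 ∧ 0 ≤ rho x.1.l 0)))

def Ci (x : GG) : Prop :=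
  0 < x.1.k ∨ (x.1.k = 0 ∧ (9 / 7 < ZZ 0 x ∨ (ZZ 0 x = 9 / 7 ∧ 0 ≤ rho x.1.l 0)))

theorem k_mul {x : GG} (hx : x ∈ LL) (y : GG) : (x * y).1.k = x.1.k + y.1.k := by
  simp [mem_LL.1 hx]
theorem k_inv {x : GG} (hx : x ∈ LL) : (x⁻¹).1.k = -x.1.k := by simp [mem_LL.1 hx]

theorem ZZ_mul (n : ℤ) {x : GG} (hx : x ∈ LL) (y : GG) :
    ZZ n (x * y) = rho x.1.b (ZZ n y) + 9 * ((n * x.1.k : ℤ) : ℝ) := by
  unfold ZZ
  rw [rho_add, k_mul hx]
  simp only [Subgroup.coe_mul, G0.mul_b, map_mul, Equiv.Perm.mul_apply]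
  push_cast; ring

theorem ZZ_facts (n : ℤ) {x : GG} (hx : x ∈ LL) (y : GG) :
    (9 / 7 < ZZ n y → ZZ n x < ZZ n (x * y)) ∧ (ZZ n y = 9 / 7 → ZZ n (x * y) = ZZ n x) ∧
      (ZZ n y < 9 / 7 → ZZ n (x * y) < ZZ n x) := by
  rw [ZZ_mul n hx]
  refine ⟨fun h => ?_, fun h => ?_, fun h => ?_⟩
  · have := rho_mono x.1.b h
    unfold ZZ at *; linarith
  · rw [h]; rfl
  · have := rho_mono x.1.b h
    unfold ZZ at *; linarith

theorem ZZ_one (n : ℤ) : ZZ n 1 = 9 / 7 := by simp [ZZ]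

theorem ZZ_inv (n : ℤ) {x : GG} (hx : x ∈ LL) :
    (9 / 7 < ZZ n x⁻¹ ∧ ZZ n x < 9 / 7) ∨ (ZZ n x⁻¹ = 9 / 7 ∧ ZZ n x = 9 / 7) ∨
      (ZZ n x⁻¹ < 9 / 7 ∧ 9 / 7 < ZZ n x) := by
  obtain ⟨h1, h2, h3⟩ := ZZ_facts n hx x⁻¹
  rw [mul_inv_cancel, ZZ_one] at h1 h2 h3
  rcases lt_trichotomy (9 / 7) (ZZ n x⁻¹) with h | h | h
  · exact Or.inl ⟨h, h1 h⟩
  · exact Or.inr (Or.inl ⟨h.symm, (h2 h.symm).symm⟩)
  · exact Or.inr (Or.inr ⟨h, h3 h⟩)

theorem l_mul {x y : GG} (hk : x.1.k = 0) (h1 : 0 ≤ rho x.1.l 0) (h2 : 0 ≤ rho y.1.l 0) :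
    0 ≤ rho (x * y).1.l 0 := by
  have := (rho_mono x.1.l).monotone h2
  simp only [Subgroup.coe_mul, G0.mul_l, hk, zpow_zero, MulAut.one_apply, map_mul,
    Equiv.Perm.mul_apply]
  linarith

theorem l_inv {x : GG} (hk : x.1.k = 0) : 0 ≤ rho (x⁻¹).1.l 0 ↔ rho x.1.l 0 ≤ 0 := by
  rw [← (rho_mono x.1.l).le_iff_le]
  simp [hk]

theorem anti_base (n : ℤ) {x : GG} (hx : x ∈ LL) (hk : x.1.k = 0) (hz : ZZ n x = 9 / 7)
    (h1 : 0 ≤ rho x.1.l 0) (h2 : 0 ≤ rho (x⁻¹).1.l 0) : x = 1 := by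
  have h3 : x.1.l = 1 := stab0 (le_antisymm ((l_inv hk).1 h2) h1)
  obtain ⟨j, hj⟩ := stabp (g := x.1.b) (by simpa [ZZ, hk] using hz)
  have h4 := psi_eq x
  rw [h3, hj, map_one, map_zpow, psi_y] at h4
  have h5 : j = 0 := by
    have := congrArg Multiplicative.toAdd h4
    simpa using this
  rw [h5, zpow_zero] at hj
  exact Subtype.ext (G0.ext h3 hj hk (mem_LL.1 hx))

theorem cone_n (n : ℕ) : Cone2 LL (Cn n) where
  idx := LL_idx
  mul x hx y _ h1 h2 := by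
    obtain ⟨a1, a2, -⟩ := ZZ_facts n hx y
    have hk := k_mul hx y
    unfold Cn at *
    rcases h2 with h2 | ⟨h2, h2'⟩
    · left; have := a1 h2; rcases h1 with h1 | h1 <;> linarith [h1]
    · rw [a2 h2]
      rcases h1 with h1 | ⟨h1, h1'⟩
      · exact Or.inl h1
      · refine Or.inr ⟨h1, ?_⟩
        rcases h1' with h1' | ⟨h1', h1''⟩ <;> rcases h2' with h2' | ⟨h2', h2''⟩
        · left; omega
        · left; omega
        · left; omega
        · exact Or.inr ⟨by omega, l_mul h1' h1'' h2''⟩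
  tot x hx := by
    have hk := k_inv hx
    unfold Cn
    rcases ZZ_inv n hx with h | h | h
    · exact Or.inr (Or.inl h.1)
    · rcases lt_trichotomy 0 x.1.k with h1 | h1 | h1
      · exact Or.inl (Or.inr ⟨h.2, Or.inl h1⟩)
      · rcases le_total 0 (rho x.1.l 0) with h2 | h2
        · exact Or.inl (Or.inr ⟨h.2, Or.inr ⟨h1.symm, h2⟩⟩)
        · exact Or.inr (Or.inr ⟨h.1, Or.inr ⟨by omega, (l_inv h1.symm).2 h2⟩⟩)
      · exact Or.inr (Or.inr ⟨h.1, Or.inl (by omega)⟩)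
    · exact Or.inl (Or.inl h.2)
  anti x hx h1 h2 := by
    have hk := k_inv hx
    unfold Cn at *
    rcases ZZ_inv n hx with h | h | h
    · exfalso; rcases h1 with h1 | h1 <;> linarith [h1, h.2]
    · rcases h1 with h1 | ⟨-, h1⟩
      · exfalso; linarith [h.2]
      rcases h2 with h2 | ⟨-, h2⟩
      · exfalso; linarith [h.1]
      rcases h1 with h1 | ⟨h1, h1'⟩ <;> rcases h2 with h2 | ⟨h2, h2'⟩
      · omega
      · omega
      · omega
      · exact anti_base n hx h1 h.2 h1' h2'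
    · exfalso; rcases h2 with h2 | h2 <;> linarith [h2, h.1]

theorem cone_i : Cone2 LL Ci where
  idx := LL_idx
  mul x hx y _ h1 h2 := by
    obtain ⟨a1, a2, -⟩ := ZZ_facts 0 hx y
    have hk := k_mul hx y
    unfold Ci at *
    rcases h1 with h1 | ⟨h1, h1'⟩ <;> rcases h2 with h2 | ⟨h2, h2'⟩
    · left; omega
    · left; omega
    · left; omega
    · refine Or.inr ⟨by omega, ?_⟩
      rcases h2' with h2' | ⟨h2', h2''⟩
      · left; have := a1 h2'; rcases h1' with h | h <;> linarith [h]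
      · rw [a2 h2']
        rcases h1' with h1' | ⟨h1', h1''⟩
        · exact Or.inl h1'
        · exact Or.inr ⟨h1', l_mul h1 h1'' h2''⟩
  tot x hx := by
    have hk := k_inv hx
    unfold Ci
    rcases lt_trichotomy 0 x.1.k with h1 | h1 | h1
    · exact Or.inl (Or.inl h1)
    · rcases ZZ_inv 0 hx with h | h | h
      · exact Or.inr (Or.inr ⟨by omega, Or.inl h.1⟩)
      · rcases le_total 0 (rho x.1.l 0) with h2 | h2
        · exact Or.inl (Or.inr ⟨h1.symm, Or.inr ⟨h.2, h2⟩⟩)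
        · exact Or.inr (Or.inr ⟨by omega, Or.inr ⟨h.1, (l_inv h1.symm).2 h2⟩⟩)
      · exact Or.inl (Or.inr ⟨h1.symm, Or.inl h.2⟩)
    · exact Or.inr (Or.inl (by omega))
  anti x hx h1 h2 := by
    have hk := k_inv hx
    unfold Ci at *
    rcases h1 with h1 | ⟨h1, h1'⟩ <;> rcases h2 with h2 | ⟨h2, h2'⟩
    · omega
    · omega
    · omega
    rcases ZZ_inv 0 hx with h | h | h
    · exfalso; rcases h1' with h1' | h1' <;> linarith [h1', h.2]
    · rcases h1' with h1' | ⟨-, h1'⟩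
      · exfalso; linarith [h.2]
      rcases h2' with h2' | ⟨-, h2'⟩
      · exfalso; linarith [h.1]
      exact anti_base 0 hx h1 h.2 h1' h2'
    · exfalso; rcases h2' with h2' | h2' <;> linarith [h2', h.1]

theorem lim_cone (x : GG) (_ : x ∈ LL) : ∀ᶠ n : ℕ in atTop, Cn n x ↔ Ci x := by
  rcases lt_trichotomy 0 x.1.k with h | h | h
  · obtain ⟨N, hN⟩ := exists_nat_gt (9 / 7 - rho x.1.b (9 / 7))
    filter_upwards [eventually_ge_atTop N] with n hn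
    refine iff_of_true (Or.inl ?_) (Or.inl h)
    have h1 : (1 : ℝ) ≤ x.1.k := by exact_mod_cast h
    have h2 : (N : ℝ) ≤ n := by exact_mod_cast hn
    have h3 : (0 : ℝ) ≤ n := Nat.cast_nonneg n
    unfold ZZ; push_cast; nlinarith
  · refine Eventually.of_forall fun n => ?_
    simp [Cn, Ci, ZZ, ← h]
  · obtain ⟨N, hN⟩ := exists_nat_gt (rho x.1.b (9 / 7) - 9 / 7)
    filter_upwards [eventually_ge_atTop N] with n hn
    have h1 : (x.1.k : ℝ) ≤ -1 := by exact_mod_cast (show x.1.k ≤ -1 by omega)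
    have h2 : (N : ℝ) ≤ n := by exact_mod_cast hn
    have h3 : (0 : ℝ) ≤ n := Nat.cast_nonneg n
    have h4 : ZZ n x < 9 / 7 := by unfold ZZ; push_cast; nlinarith
    refine iff_of_false ?_ ?_
    · rintro (h5 | h5) <;> linarith [h5]
    · rintro (h5 | h5) <;> omega

theorem s_not : gg 6 ∉ LL := by simp [mem_LL, gens]

theorem pow_b (x : G0) (n : ℕ) : (x ^ n).b = x.b ^ n := by
  induction n with
  | zero => simp
  | succ n ih => simp [pow_succ, ih]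
theorem pow_k (x : G0) (h : x.k = 0) (n : ℕ) : (x ^ n).k = 0 := by
  induction n with
  | zero => simp
  | succ n ih => simp [pow_succ, ih, h]

theorem ne_cone (n : ℕ) : ∃ x ∈ LL, Cn n x ∧ ¬ Ci x := by
  have h4 : gg 4 ∈ LL := by simp [mem_LL, gens]
  have h5 : gg 5 ∈ LL := by simp [mem_LL, gens]
  have hm := pow_mem (mul_mem h4 h4) (n + 1)
  have hk : ((gg 4 * gg 4) ^ (n + 1) * (gg 5)⁻¹).1.k = -1 := by
    rw [k_mul hm, k_inv h5, Subgroup.coe_pow, pow_k _ (by simp [gens])]; simp [gens]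
  refine ⟨(gg 4 * gg 4) ^ (n + 1) * (gg 5)⁻¹, mul_mem hm (inv_mem h5), Or.inl ?_, ?_⟩
  · have hb : ((gg 4 * gg 4) ^ (n + 1) * (gg 5)⁻¹).1.b = TG.z ^ ((n + 1 : ℕ) : ℤ) := by
      rw [Subgroup.coe_mul, G0.mul_b, Subgroup.coe_pow, pow_b, zpow_natCast]
      simp [gens, Tri.z]
    unfold ZZ
    rw [hk, hb, rho_zpow]; push_cast; linarith
  · rintro (h | h) <;> omega

theorem acc : cone_i.co.1 ∈ derivedSet (COset GG) :=
  acc_of_tendsto cone_n lim_cone s_not ne_cone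

theorem not_Ci_l {x : GG} (hx : x ∈ LL) (hk : x.1.k = 0) {j : ℤ} (hb : x.1.b = TG.y ^ j)
    (hl : 0 < rho x.1.l 0) : ¬ Ci x⁻¹ := by
  have hz : ZZ 0 x = 9 / 7 := by simp [ZZ, hb, -map_zpow, yp_zpow]
  have hk' := k_inv hx
  rintro (h | ⟨-, h | ⟨-, h⟩⟩)
  · omega
  · rcases ZZ_inv 0 hx with h' | h' | h' <;> linarith [h'.1, h'.2]
  · linarith [(l_inv hk).1 h]

theorem not_Ci_b {x : GG} (hx : x ∈ LL) (hk : x.1.k = 0)
    (hb : 9 / 7 < rho x.1.b (9 / 7)) : ¬ Ci x⁻¹ := by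
  have hz : 9 / 7 < ZZ 0 x := by simpa [ZZ] using hb
  have hk' := k_inv hx
  rintro (h | ⟨-, h | ⟨h, -⟩⟩)
  · omega
  · rcases ZZ_inv 0 hx with h' | h' | h' <;> linarith [h'.1, h'.2]
  · rcases ZZ_inv 0 hx with h' | h' | h' <;> linarith [h'.1, h'.2]

theorem v_a1 : (rel_gg.T1.a).1 = ⟨TG.a, TG.y⁻¹, 0, 1⟩ := by
  show (gens 3)⁻¹ * gens 2 * gens 4 = _
  ext <;> simp [gens, Tri.y, mul_assoc]
theorem v_b1 : (rel_gg.T1.b).1 = ⟨TG.b, TG.y⁻¹, 0, 1⟩ := by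
  show (rel_gg.T1.a).1 * gens 0 = _
  rw [v_a1]; ext <;> simp [gens]
theorem v_c1 : (rel_gg.T1.c).1 = ⟨TG.c, TG.y⁻¹, 0, 1⟩ := by
  show (rel_gg.T1.a).1 * gens 1 = _
  rw [v_a1]; ext <;> simp [gens]
theorem v_y1 : (rel_gg.T1.y).1 = ⟨TG.y, TG.y, 0, 1⟩ := by
  show (rel_gg.T1.a).1⁻¹ * (rel_gg.T1.b).1⁻¹ * (rel_gg.T1.c).1 = _
  rw [v_a1, v_b1, v_c1]; ext <;> simp [Tri.y, mul_assoc]
theorem v_b2 : (rel_gg.T2.b).1 = ⟨TG.a, TG.b, 0, 1⟩ := by
  show gens 4 * gens 2 = _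
  ext <;> simp [gens]
theorem v_m : (rel_gg.ga⁻¹ * gg 2).1 =
    ⟨(TG.y * TG.y * (TG.a * TG.a))⁻¹, TG.a⁻¹ * TG.b, 0, 1⟩ := by
  show ((rel_gg.T1.y).1 * (rel_gg.T1.y).1 * ((rel_gg.T1.a).1 * (rel_gg.T1.a).1))⁻¹ * gens 2 = _
  rw [v_a1, v_y1]; ext <;> simp [gens]

theorem cnt : ∃ U ∈ 𝓝 cone_i.co, U.Countable := by
  have m : ∀ i : Fin 7, i ≠ 6 → gg i ∈ LL := by
    intro i hi
    fin_cases i <;> simp [mem_LL, gens] at hi ⊢
  refine cone_i.countable gg_gen rel_gg (m 0 (by simp)) (m 1 (by simp)) (m 2 (by simp))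
    (m 3 (by simp)) (m 4 (by simp)) (m 5 (by simp)) s_not ?_ ?_ ?_ ?_ ?_ ?_ ?_ ?_
  · apply Subtype.ext
    show gens 6 * gens 6 = 1
    ext <;> simp [gens]
  · refine not_Ci_l ?_ ?_ (j := -1) ?_ ?_
    · rw [mem_LL, v_a1]
    · rw [v_a1]
    · rw [v_a1]; simp
    · rw [v_a1]; exact rho_a 0
  · refine not_Ci_l ?_ ?_ (j := -1) ?_ ?_
    · rw [mem_LL, v_b1]
    · rw [v_b1]
    · rw [v_b1]; simp
    · rw [v_b1]; exact rho_b 0
  · refine not_Ci_l ?_ ?_ (j := 1) ?_ ?_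
    · rw [mem_LL, v_y1]
    · rw [v_y1]
    · rw [v_y1]; simp
    · rw [v_y1]; exact y0
  · exact not_Ci_b (m 4 (by simp)) rfl (rho_a _)
  · refine not_Ci_b ?_ ?_ ?_
    · rw [mem_LL, v_b2]
    · rw [v_b2]
    · rw [v_b2]; exact rho_b _
  · refine not_Ci_b ?_ ?_ ?_
    · rw [mem_LL, v_m]
    · rw [v_m]
    · have e1 : TG.a⁻¹ * TG.b = TG.y * TG.b * (TG.a * TG.y) := by
        conv_lhs => rw [TG.ab_eq, TG.c_eq]
        simp [mul_assoc]
      have h1 := lep (TG.le_of_eq' (mul_mem TG.aM TG.yM) e1)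
      have h2 := rho_mono TG.y (rho_b (9 / 7))
      rw [yp] at h2
      rw [map_mul, Equiv.Perm.mul_apply] at h1
      rw [v_m]; linarith
  · have hk : ((rel_gg.T2.z⁻¹ * gg 5)⁻¹).1.k = -1 := by
      show (((gens 4 * gens 4)⁻¹ * gens 5)⁻¹).k = -1
      simp [gens]
    rintro (h | h) <;> omega

theorem main : (derivedSet (COset GG)).Nonempty ∧
    ¬ Nonempty (derivedSet (COset GG) ≃ₜ (ℕ → Bool)) :=
  ⟨⟨_, acc⟩, not_cantor cone_i.co acc cnt⟩

end Pool.Agent.H111Z.CO
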