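import Pool.Agent.H111Z.CO.Idx2

/-! The group `⟨a, b, c | a² = b² = c²⟩` and an action on the line. -/

set_option autoImplicit false

namespace Pool.Agent.H111Z.CO

open Classical

def gamRel : Set (FreeGroup (Fin 3)) :=
  {FreeGroup.of 1 * FreeGroup.of 1 * (FreeGroup.of 0 * FreeGroup.of 0)⁻¹,
    FreeGroup.of 2 * FreeGroup.of 2 * (FreeGroup.of 0 * FreeGroup.of 0)⁻¹}

abbrev Gam : Type := PresentedGroup gamRel

def TG : Tri Gam where
  a := PresentedGroup.of 0
  b := PresentedGroup.of 1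
  c := PresentedGroup.of 2
  hb := by
    have := PresentedGroup.one_of_mem (rels := gamRel) (Set.mem_insert _ _)
    rw [map_mul, map_inv, mul_inv_eq_one, map_mul, map_mul] at this
    exact this
  hc := by
    have := PresentedGroup.one_of_mem (rels := gamRel) (Set.mem_insert_of_mem _ rfl)
    rw [map_mul, map_inv, mul_inv_eq_one, map_mul, map_mul] at this
    exact this

theorem TG_K (g : Gam) : g ∈ TG.K := by
  have : Subgroup.closure (Set.range (PresentedGroup.of : Fin 3 → Gam)) ≤ TG.K := by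
    refine (Subgroup.closure_le _).2 ?_
    rintro _ ⟨i, rfl⟩
    fin_cases i
    · exact TG.aK
    · exact TG.bK
    · exact TG.cK
  rw [PresentedGroup.closure_range_of] at this
  exact this trivial

def triHom {D : Type*} [Group D] (T : Tri D) : Gam →* D :=
  PresentedGroup.toGroup (f := T.s) (by
    intro r hr
    simp only [gamRel, Set.mem_insert_iff, Set.mem_singleton_iff] at hr
    rcases hr with rfl | rfl
    · simp only [map_mul, map_inv, FreeGroup.lift_apply_of, mul_inv_eq_one]; exact T.hb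
    · simp only [map_mul, map_inv, FreeGroup.lift_apply_of, mul_inv_eq_one]; exact T.hc)

@[simp] theorem triHom_a {D : Type*} [Group D] (T : Tri D) : triHom T TG.a = T.a :=
  PresentedGroup.toGroup.of _
@[simp] theorem triHom_b {D : Type*} [Group D] (T : Tri D) : triHom T TG.b = T.b :=
  PresentedGroup.toGroup.of _
@[simp] theorem triHom_c {D : Type*} [Group D] (T : Tri D) : triHom T TG.c = T.c :=
  PresentedGroup.toGroup.of _

theorem gam_ext {D : Type*} [Group D] {φ ψ : Gam →* D} (ha : φ TG.a = ψ TG.a)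
    (hb : φ TG.b = ψ TG.b) (hc : φ TG.c = ψ TG.c) : φ = ψ := by
  ext i
  fin_cases i
  · exact ha
  · exact hb
  · exact hc

def th0 : Gam →* Gam := triHom ⟨TG.a, TG.c, TG.b, TG.hc, TG.hb⟩
theorem th0_th0 : th0.comp th0 = MonoidHom.id _ := gam_ext (by simp [th0]) (by simp [th0])
  (by simp [th0])
def th : MulAut Gam := MonoidHom.toMulEquiv th0 th0 th0_th0 th0_th0
@[simp] theorem th_a : th TG.a = TG.a := by simp [th, th0]
@[simp] theorem th_b : th TG.b = TG.c := by simp [th, th0]
@[simp] theorem th_c : th TG.c = TG.b := by simp [th, th0]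
theorem th_inv : th⁻¹ = th := rfl
theorem th_neg (k : ℤ) : th ^ (-k) = th ^ k := by rw [zpow_neg, ← inv_zpow, th_inv]
theorem th_unit (e : ℤˣ) (k : ℤ) : th ^ ((e : ℤ) * k) = th ^ k := by
  rcases Int.units_eq_one_or e with rfl | rfl
  · simp
  · rw [← th_neg]; simp

def psi : Gam →* Multiplicative ℤ :=
  triHom ⟨Multiplicative.ofAdd 1, Multiplicative.ofAdd 1, Multiplicative.ofAdd 1, rfl, rfl⟩
theorem psi_th (g : Gam) : psi (th g) = psi g := by
  have : psi.comp th.toMonoidHom = psi := gam_ext (by simp) (by simp [psi]) (by simp [psi])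
  exact DFunLike.congr_fun this g
theorem psi_th_zpow (k : ℤ) (g : Gam) : psi ((th ^ k) g) = psi g := by
  induction k using Int.induction_on generalizing g with
  | zero => simp
  | succ k ih => rw [zpow_add_one, MulAut.mul_apply, ih, psi_th]
  | pred k ih => rw [zpow_sub_one, MulAut.mul_apply, ih, th_inv, psi_th]
theorem psi_y : psi TG.y = Multiplicative.ofAdd (-1) := by
  simp [psi, Tri.y]

noncomputable def gF (r : ℝ) : ℝ := if r < 2 then 8 * r - 6 else (r + 78) / 8
noncomputable def aF (x : ℝ) : ℝ := 9 * (⌊(x - 1) / 9⌋ : ℝ) + gF (x - 9 * ⌊(x - 1) / 9⌋)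

theorem aF_eq (n : ℤ) {x : ℝ} (h1 : 9 * (n : ℝ) + 1 ≤ x) (h2 : x < 9 * n + 10) :
    aF x = 9 * n + gF (x - 9 * n) := by
  have : ⌊(x - 1) / 9⌋ = n := by
    rw [Int.floor_eq_iff]; constructor <;> linarith
  unfold aF; rw [this]

theorem exists_lev (x : ℝ) : ∃ n : ℤ, 9 * (n : ℝ) + 1 ≤ x ∧ x < 9 * n + 10 := by
  refine ⟨⌊(x - 1) / 9⌋, ?_, ?_⟩
  · have := Int.floor_le ((x - 1) / 9); linarith
  · have := Int.lt_floor_add_one ((x - 1) / 9); linarith

theorem aF_aF (x : ℝ) : aF (aF x) = x + 9 := by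
  obtain ⟨n, h1, h2⟩ := exists_lev x
  rw [aF_eq n h1 h2]
  unfold gF
  split_ifs with h
  · rw [aF_eq n (by linarith) (by linarith)]
    unfold gF; rw [if_neg (by linarith)]; ring
  · rw [aF_eq (n + 1) (by push_cast; linarith) (by push_cast; linarith)]
    unfold gF; rw [if_pos (by push_cast; linarith)]; push_cast; ring

theorem aF_mono : StrictMono aF := by
  intro x y hxy
  obtain ⟨n, h1, h2⟩ := exists_lev x
  obtain ⟨m, h3, h4⟩ := exists_lev y
  rw [aF_eq n h1 h2, aF_eq m h3 h4]
  have hnm : n ≤ m := by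
    have : (n : ℝ) < m + 1 := by linarith
    have : n < m + 1 := by exact_mod_cast this
    omega
  rcases hnm.eq_or_lt with rfl | hlt
  · unfold gF; split_ifs <;> linarith
  · have : (n : ℝ) + 1 ≤ m := by exact_mod_cast hlt
    unfold gF; split_ifs <;> linarith

theorem lt_aF (x : ℝ) : x < aF x := by
  by_contra h
  have h1 := aF_mono.monotone (not_lt.1 h)
  rw [aF_aF] at h1
  linarith [not_lt.1 h]

theorem aF_sub (x : ℝ) : aF (x - 9) = aF x - 9 := by
  have := aF_aF (aF (x - 9))
  rw [aF_aF (x - 9), sub_add_cancel] at this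
  linarith

noncomputable def mkP (r : ℝ) : Equiv.Perm ℝ where
  toFun x := aF (x - r) + r
  invFun x := aF (x - r) + r - 9
  left_inv x := by simp only [add_sub_cancel_right, aF_aF]; ring
  right_inv x := by
    have : aF (x - r) + r - 9 - r = aF (x - r) - 9 := by ring
    simp only [this, aF_sub, aF_aF]; ring

theorem mkP_apply (r x : ℝ) : mkP r x = aF (x - r) + r := rfl
theorem mkP_inv_apply (r x : ℝ) : (mkP r)⁻¹ x = aF (x - r) + r - 9 := rfl
theorem mkP_sq (r x : ℝ) : (mkP r * mkP r) x = x + 9 := by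
  simp only [Equiv.Perm.mul_apply, mkP_apply, add_sub_cancel_right, aF_aF]; ring

noncomputable def rho : Gam →* Equiv.Perm ℝ :=
  triHom ⟨mkP 0, mkP 3, mkP 6, by ext x; rw [mkP_sq, mkP_sq], by ext x; rw [mkP_sq, mkP_sq]⟩

theorem rho_mono (g : Gam) : StrictMono (rho g) := by
  have hm : ∀ r, StrictMono (mkP r) := fun r x y h => by
    have := aF_mono (sub_lt_sub_right h r)
    simp only [mkP_apply]; linarith
  have hg := TG_K g
  induction hg using Subgroup.closure_induction with
  | mem x hx =>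
    simp only [Set.mem_insert_iff, Set.mem_singleton_iff] at hx
    rcases hx with rfl | rfl | rfl <;> simp only [rho, triHom_a, triHom_b, triHom_c] <;> exact hm _
  | one => rw [map_one]; exact strictMono_id
  | mul x y _ _ hx hy => rw [map_mul]; exact hx.comp hy
  | inv x _ hx =>
    intro u v huv
    rw [← hx.lt_iff_lt, map_inv]
    simpa using huv

theorem rho_z (x : ℝ) : rho TG.z x = x + 9 := by
  simp only [Tri.z, map_mul, rho, triHom_a]; exact mkP_sq 0 x

theorem rho_zpow (m : ℤ) (x : ℝ) : rho (TG.z ^ m) x = x + 9 * m := by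
  induction m using Int.induction_on generalizing x with
  | zero => simp
  | succ k ih => rw [zpow_add_one, map_mul, Equiv.Perm.mul_apply, ih, rho_z]; push_cast; ring
  | pred k ih =>
    have : rho TG.z⁻¹ x = x - 9 := by
      rw [map_inv, Equiv.Perm.inv_eq_iff_eq, rho_z]; ring
    rw [zpow_sub_one, map_mul, Equiv.Perm.mul_apply, ih, this]; push_cast; ring

theorem rho_add (g : Gam) (m : ℤ) (x : ℝ) : rho g (x + 9 * m) = rho g x + 9 * m := by
  rw [← rho_zpow, ← rho_zpow, ← Equiv.Perm.mul_apply, ← Equiv.Perm.mul_apply, ← map_mul,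
    ← map_mul, ((TG.zK_comm (TG_K g)).zpow_left m).eq]

theorem rho_a (x : ℝ) : x < rho TG.a x := by
  simp only [rho, triHom_a, mkP_apply]; linarith [lt_aF (x - 0)]
theorem rho_b (x : ℝ) : x < rho TG.b x := by
  simp only [rho, triHom_b, mkP_apply]; linarith [lt_aF (x - 3)]

theorem rho_y {x : ℝ} (h1 : 0 ≤ x) (h2 : x ≤ 2) : rho TG.y x = (x + 657) / 512 := by
  simp only [Tri.y, map_mul, map_inv, rho, triHom_a, triHom_b, triHom_c, Equiv.Perm.mul_apply,
    mkP_apply, mkP_inv_apply]
  have e1 : aF (x - 6) = (x + 9) / 8 := by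
    rw [aF_eq (-1) (by push_cast; linarith) (by push_cast; linarith)]
    unfold gF; rw [if_neg (by push_cast; linarith)]; push_cast; ring
  rw [e1]
  have e2 : aF ((x + 9) / 8 + 6 - 3) = (x + 657) / 64 := by
    rw [aF_eq 0 (by push_cast; linarith) (by push_cast; linarith)]
    unfold gF; rw [if_neg (by push_cast; linarith)]; push_cast; ring
  rw [e2, aF_eq 0 (by push_cast; linarith) (by push_cast; linarith)]
  unfold gF; rw [if_neg (by push_cast; linarith)]; push_cast; ring

/-- the preorder given by the orbit of a point -/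
noncomputable def orb (p : ℝ) : LP Gam where
  le g h := rho g p ≤ rho h p
  total _ _ := le_total _ _
  trans := le_trans
  mul g _ _ h := by
    simp only [map_mul, Equiv.Perm.mul_apply]; exact (rho_mono g).monotone h

theorem orb_lt {p : ℝ} {g : Gam} : (orb p).lt 1 g ↔ p < rho g p := by simp [LP.lt, orb]

theorem y0 : (0 : ℝ) < rho TG.y 0 := by rw [rho_y le_rfl (by norm_num)]; norm_num
theorem yp : rho TG.y (9 / 7) = 9 / 7 := by rw [rho_y (by norm_num) (by norm_num)]; norm_num
theorem yp_zpow (k : ℤ) : rho (TG.y ^ k) (9 / 7) = 9 / 7 := by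
  rw [map_zpow]; exact Equiv.Perm.zpow_apply_eq_self_of_apply_eq_self yp k

theorem M0 {g : Gam} (hg : g ∈ TG.M) : g = 1 ∨ 0 < rho g 0 := by
  simpa only [orb_lt] using
    LP.tri_M_lt (P := orb 0) (orb_lt.2 (rho_a 0)) (orb_lt.2 (rho_b 0)) (orb_lt.2 y0) hg

theorem stab0 {g : Gam} (h : rho g 0 = 0) : g = 1 := by
  rcases TG.total (TG_K g) with h1 | h1
  · rcases M0 h1 with h2 | h2
    · exact h2
    · linarith
  · rcases M0 h1 with h2 | h2
    · exact inv_eq_one.1 h2
    · have : rho g⁻¹ 0 = 0 := by rw [map_inv, Equiv.Perm.inv_eq_iff_eq, h]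
      linarith

theorem lep {g h : Gam} (hg : TG.le g h) : rho g (9 / 7) ≤ rho h (9 / 7) :=
  LP.tri_le (P := orb (9 / 7)) (orb_lt.2 (rho_a _)).le (orb_lt.2 (rho_b _)).le
    (by simp [orb, yp]) hg

theorem stabp {g : Gam} (h : rho g (9 / 7) = 9 / 7) : ∃ k : ℤ, g = TG.y ^ k := by
  rcases TG.tricho (TG_K g) with h1 | ⟨k, h1⟩ | ⟨k, h1⟩
  · exact h1
  · have h2 := lep h1
    have h3 := rho_mono (TG.y ^ k) (rho_a (9 / 7))
    rw [← zpow_natCast, yp_zpow] at h3
    rw [map_mul, Equiv.Perm.mul_apply, h, ← zpow_natCast] at h2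
    linarith
  · have h2 := lep h1
    have h4 : rho TG.a⁻¹ (9 / 7) < 9 / 7 := by
      rw [← (rho_mono TG.a).lt_iff_lt, map_inv]; simpa using rho_a _
    have h3 := rho_mono (TG.y ^ (-(k : ℤ))) h4
    rw [yp_zpow] at h3
    rw [map_mul, Equiv.Perm.mul_apply, h, ← zpow_natCast, ← zpow_neg] at h2
    linarith

end Pool.Agent.H111Z.CO
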