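import Pool.Agent.H111Z.CO.Gen

/-! Only countably many left-invariant total preorders satisfy a fixed finite list of
inequalities. -/

set_option autoImplicit false

namespace Pool.Agent.H111Z.CO

variable {D : Type*} [Group D]

open LP

namespace Rel

variable {f : Fin 7 → D} (R : Rel f) (hgen : Subgroup.closure (Set.range f) = ⊤)

/-- the finitely many inequalities -/
structure Ineq (P : LP D) : Prop where
  a1 : P.lt 1 R.T1.a
  b1 : P.lt 1 R.T1.b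
  y1 : P.lt 1 R.T1.y
  a2 : P.lt 1 R.T2.a
  b2 : P.lt 1 R.T2.b
  m1 : P.lt 1 (R.ga⁻¹ * f 2)
  t : P.lt 1 (R.T2.z⁻¹ * f 5)
  s : P.lt 1 (f 6)

abbrev Q (P : LP D) : LP D := P.quo (N f) (R.N_normal hgen)

variable {R} {P : LP D} (I : R.Ineq P)
include I

theorem z1_pos : P.lt 1 R.T1.z := lt_of_lt_of_le I.a1 (le_mul_right _ I.a1.le)
theorem z2_pos : P.lt 1 R.T2.z := lt_of_lt_of_le I.a2 (le_mul_right _ I.a2.le)
theorem le1 {g h : D} (hg : R.T1.le g h) : P.le g h := tri_le I.a1.le I.b1.le I.y1.le hg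

theorem z1_le_ga : P.le R.T1.z R.ga := by
  have : R.ga = R.T1.z * (R.T1.y * R.T1.y) := by
    unfold ga; rw [← (R.T1.zy.mul_right R.T1.zy).eq]
  rw [this]; exact le_mul_right _ (one_le_mul I.y1.le I.y1.le)

omit I in
theorem z1_comm_ga : Commute R.T1.z R.ga :=
  (R.T1.zy.mul_right R.T1.zy).mul_right (Commute.refl _)

theorem K1_bound {l : D} (hl : l ∈ R.T1.K) :
    ∃ K : ℕ, P.le l (R.T1.z ^ K) ∧ P.le (R.T1.z ^ K)⁻¹ l := by
  obtain ⟨j, h1, h2⟩ := R.T1.floor hl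
  refine ⟨j.natAbs + 1, P.trans (le1 I h2) ?_, P.trans ?_ (le1 I h1)⟩
  · rw [← zpow_natCast]; exact zpow_mono (z1_pos I).le (by omega)
  · rw [← zpow_natCast, ← zpow_neg]; exact zpow_mono (z1_pos I).le (by omega)

theorem K1_hull {l : D} (hl : l ∈ R.T1.K) : (R.Q hgen P).le l 1 ∧ (R.Q hgen P).le 1 l := by
  obtain ⟨K, h1, h2⟩ := K1_bound I hl
  have g1 := comm_pow z1_comm_ga (z1_le_ga I) K
  have g2 := comm_pow_inv z1_comm_ga (z1_le_ga I) K
  have hm : R.ga ^ K ∈ N f := pow_mem (R.ga_mem hgen) K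
  constructor
  · refine (R.Q hgen P).trans (quo_le (P.trans h1 g1)) ?_
    simpa using quo_left (P := P) (hN := R.N_normal hgen) hm 1
  · refine (R.Q hgen P).trans ?_ (quo_le (P.trans g2 h2))
    simpa using quo_left' (P := P) (hN := R.N_normal hgen) (inv_mem hm) 1

theorem hull_bound {x : D} (h1 : (R.Q hgen P).le x 1) (h2 : (R.Q hgen P).le 1 x) :
    ∃ K : ℕ, P.le x (R.T1.z ^ K) ∧ P.le (R.T1.z ^ K)⁻¹ x := by
  obtain ⟨n, hn, h3⟩ := quo_le_one h1
  obtain ⟨n', hn', h4⟩ := quo_one_le h2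
  obtain ⟨K, h5, -⟩ := K1_bound I (R.N_le_K1 hn)
  obtain ⟨K', -, h6⟩ := K1_bound I (R.N_le_K1 hn')
  refine ⟨K + K', P.trans h3 (P.trans h5 ?_), P.trans (P.trans ?_ h6) h4⟩
  · rw [← zpow_natCast, ← zpow_natCast]; exact zpow_mono (z1_pos I).le (by push_cast; omega)
  · rw [← zpow_natCast, ← zpow_natCast, ← zpow_neg, ← zpow_neg]
    exact zpow_mono (z1_pos I).le (by push_cast; omega)

theorem Qd : (R.Q hgen P).lt 1 (f 4) := by
  intro h
  have h1 : (R.Q hgen P).le 1 (f 4) := quo_le I.a2.le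
  obtain ⟨K, h2, h3⟩ := hull_bound hgen I (inv_le_one h1) (one_le_inv h)
  have hc : Commute R.ga (f 2) := (R.comm_N R.m1n1 R.m1n2 (R.ga_mem hgen)).symm
  have hl : P.le R.ga (f 2) := by simpa using (I.m1.mul R.ga).le
  have hp : P.lt 1 (f 2) := lt_of_lt_of_le (z1_pos I) (P.trans (z1_le_ga I) hl)
  refine inv_not_hull hp R.dm1 (i0 := -(K : ℤ)) (i1 := K) ?_ ?_
  · rw [zpow_neg, zpow_natCast]
    exact P.trans (comm_pow_inv hc hl K)
      (P.trans (comm_pow_inv z1_comm_ga (z1_le_ga I) K) h3)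
  · rw [zpow_natCast]
    exact P.trans h2 (P.trans (comm_pow z1_comm_ga (z1_le_ga I) K) (comm_pow hc hl K))

theorem Qy : (R.Q hgen P).le R.T2.y 1 ∧ (R.Q hgen P).le 1 R.T2.y := by
  rw [y2_eq]; exact K1_hull hgen I (inv_mem R.T1.aK)

theorem Qle2 {g h : D} (hg : R.T2.le g h) : (R.Q hgen P).le g h :=
  tri_le (quo_le I.a2.le) (quo_le I.b2.le) (Qy hgen I).2 hg

theorem Qypow (k : ℤ) : (R.Q hgen P).le 1 (R.T2.y ^ k) ∧ (R.Q hgen P).le (R.T2.y ^ k) 1 :=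
  zpow_both (Qy hgen I).2 (Qy hgen I).1 k

omit I in
/-- `v` commutes with the upper copy -/
def Cm (R : Rel f) (v : D) : Prop := ∀ g ∈ R.T2.K, Commute v g

theorem up_mul {v w : D} (hv : R.Cm v) (hw : R.Cm w) (uv : (R.Q hgen P).lt v (f 4))
    (uw : (R.Q hgen P).lt w (f 4)) : (R.Q hgen P).lt (v * w) (f 4) := by
  have key : ∀ v, R.Cm v → (R.Q hgen P).lt v (f 4) → (R.Q hgen P).lt v (R.T2.y * f 4) := by
    intro v hv uv
    have h1 : (R.Q hgen P).le (R.T2.y⁻¹ * v) v := by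
      rw [← (hv _ (inv_mem R.T2.yK)).eq]
      exact mul_le_right _ (inv_le_one (Qy hgen I).2)
    simpa using (lt_of_le_of_lt h1 uv).mul R.T2.y
  have h1 := (key w hw uw).mul v
  rw [(hv _ (mul_mem R.T2.yK R.dK)).eq] at h1
  have h2 := (lt_of_lt_of_le (key v hv uv) (Qle2 hgen I R.T2.g2)).mul (R.T2.y * f 4)
  have e : R.T2.y * f 4 * (R.T2.a⁻¹ * R.T2.y⁻¹ * R.T2.a) = f 4 := by
    show R.T2.y * f 4 * ((f 4)⁻¹ * R.T2.y⁻¹ * f 4) = f 4
    simp [mul_assoc]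
  rw [e] at h2
  exact h1.trans h2

theorem up_pow {v : D} (hv : R.Cm v) (uv : (R.Q hgen P).lt v (f 4)) (k : ℕ) :
    (R.Q hgen P).lt (v ^ k) (f 4) := by
  induction k with
  | zero => simpa using Qd hgen I
  | succ k ih =>
    rw [pow_succ]
    exact up_mul hgen I (fun g hg => (hv g hg).pow_left k) hv ih uv

theorem up_zpow {v : D} (hv : R.Cm v) (uv : (R.Q hgen P).lt v (f 4))
    (uv' : (R.Q hgen P).lt v⁻¹ (f 4)) (k : ℤ) : (R.Q hgen P).lt (v ^ k) (f 4) := by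
  obtain ⟨n, rfl | rfl⟩ := Int.eq_nat_or_neg k
  · rw [zpow_natCast]; exact up_pow hgen I hv uv n
  · rw [zpow_neg, zpow_natCast, ← inv_pow]
    exact up_pow hgen I (fun g hg => (hv g hg).inv_left) uv' n

theorem G_pos {n g v : D} (hn : n ∈ N f) (hg : g ∈ R.T2.K) (hv : R.Cm v)
    (uv : (R.Q hgen P).lt v⁻¹ (f 4)) {i : ℕ} (h : R.T2.le (R.T2.y ^ i * R.T2.a) g) :
    (R.Q hgen P).lt 1 (n * g * v) := by
  have h1 : (R.Q hgen P).lt 1 (f 4 * v) := by
    have := uv.mul v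
    rwa [mul_inv_cancel, (hv _ R.dK).eq] at this
  have h2 := h1.mul (R.T2.y ^ i)
  have h3 : (R.Q hgen P).le 1 (R.T2.y ^ i * 1) := by simpa using (Qypow hgen I i).1
  have h4 := (R.Q hgen P).mul v (Qle2 hgen I h)
  rw [(hv _ (mul_mem (pow_mem R.T2.yK i) R.T2.aK)).eq, (hv _ hg).eq, mul_assoc] at h4
  rw [mul_assoc]
  exact lt_of_lt_of_le (lt_of_lt_of_le (lt_of_le_of_lt h3 h2) h4) (quo_left' hn _)

theorem G_neg {n g v : D} (hn : n ∈ N f) (hg : g ∈ R.T2.K) (hv : R.Cm v)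
    (uv : (R.Q hgen P).lt v (f 4)) {i : ℕ} (h : R.T2.le g ((R.T2.y ^ i)⁻¹ * R.T2.a⁻¹)) :
    (R.Q hgen P).lt (n * g * v) 1 := by
  have h1 : (R.Q hgen P).lt ((f 4)⁻¹ * v) 1 := by simpa using uv.mul (f 4)⁻¹
  have h2 := h1.mul (R.T2.y ^ i)⁻¹
  have h3 : (R.Q hgen P).le ((R.T2.y ^ i)⁻¹ * 1) 1 := by
    simpa using (Qypow hgen I (-(i : ℤ))).2
  have h4 := (R.Q hgen P).mul v (Qle2 hgen I h)
  rw [(hv _ (mul_mem (inv_mem (pow_mem R.T2.yK i)) (inv_mem R.T2.aK))).eq, (hv _ hg).eq,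
    mul_assoc] at h4
  rw [mul_assoc]
  exact lt_of_le_of_lt (quo_left hn _) (lt_of_le_of_lt h4 (lt_of_lt_of_le h2 h3))

theorem K1_sign {l : D} (hl : l ∈ R.T1.K) : P.le 1 l ↔ l ∈ R.T1.M := by
  constructor
  · intro h
    rcases R.T1.total hl with h1 | h1
    · exact h1
    · rcases tri_M_lt I.a1 I.b1 I.y1 h1 with h2 | h2
      · rw [inv_eq_one.1 h2]; exact one_mem _
      · exact absurd (inv_le_one h) h2
  · exact tri_M I.a1.le I.b1.le I.y1.le

omit I in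
theorem ny_mem {n : D} (hn : n ∈ N f) (k : ℤ) : n * R.T2.y ^ k ∈ R.T1.K := by
  rw [y2_eq]; exact mul_mem (R.N_le_K1 hn) (zpow_mem (inv_mem R.T1.aK) k)

theorem u_not_hull (n : ℤ) (h1 : (R.Q hgen P).le (R.u n) 1) (h2 : (R.Q hgen P).le 1 (R.u n)) :
    False := by
  have ha := K1_hull hgen I (inv_mem R.T1.aK)
  set v := (ah f)⁻¹ * R.u n with hv
  have v1 : (R.Q hgen P).le v 1 := mul_le_one ha.1 h1
  have v2 : (R.Q hgen P).le 1 v := one_le_mul ha.2 h2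
  obtain ⟨K, h3, h4⟩ := hull_bound hgen I v1 v2
  have e1 : ∀ k : ℕ, v * R.T1.y ^ k = (R.T1.z ^ k)⁻¹ * ((R.T1.y ^ k)⁻¹ * v) := by
    intro k
    have : v * R.T1.y ^ k * v⁻¹ = (R.T1.z ^ k)⁻¹ * (R.T1.y ^ k)⁻¹ := by
      rw [← conj_pow, R.u_conj n, (R.T1.zy.inv_left.inv_right).mul_pow, inv_pow, inv_pow]
    rw [← mul_assoc, ← this]; simp
  have h5 : P.le v (v * R.T1.y ^ (2 * K + 1)) := le_mul_right _ (one_le_pow I.y1.le _)
  rw [e1] at h5
  have h6 : P.le ((R.T1.y ^ (2 * K + 1))⁻¹ * v) (R.T1.z ^ K) := by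
    refine P.trans (P.mul _ h3) ?_
    rw [← ((R.T1.zy.pow_left K).pow_right _).inv_right.eq]
    exact mul_le_right _ (inv_le_one (one_le_pow I.y1.le _))
  have h7 := P.trans h4 (P.trans h5 (P.mul _ h6))
  rw [← zpow_natCast, ← zpow_natCast, ← zpow_neg, ← zpow_neg, ← zpow_add] at h7
  exact zpow_lt (z1_pos I) (by push_cast; omega) h7

omit I in
/-- the parameter of a preorder -/
def Par (R : Rel f) (hgen : Subgroup.closure (Set.range f) = ⊤) (P : LP D) :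
    Option (ℤ × Bool) → Prop
  | none => ∀ k : ℕ, (R.Q hgen P).lt (f 4 ^ k) (f 5)
  | some (n, e) => (R.Q hgen P).lt (R.u n) (f 4) ∧ (R.Q hgen P).lt (R.u n)⁻¹ (f 4) ∧
      (e = true → (R.Q hgen P).lt 1 (R.u n)) ∧ (e = false → (R.Q hgen P).lt (R.u n) 1)

theorem z2_le_t : P.le R.T2.z (f 5) := by simpa using (I.t.mul R.T2.z).le

theorem exists_par : ∃ κ, R.Par hgen P κ := by
  by_cases hA : ∀ k : ℕ, (R.Q hgen P).lt (f 4 ^ k) (f 5)
  · exact ⟨none, hA⟩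
  push Not at hA
  obtain ⟨k, hk⟩ := hA
  have hk' : (R.Q hgen P).le (f 5) (f 4 ^ (k : ℤ)) := by
    rw [zpow_natCast]; exact not_not.1 hk
  have h0 : (R.Q hgen P).le (f 4 ^ (0 : ℤ)) (f 5) := by
    rw [zpow_zero]; exact quo_le (P.trans (z2_pos I).le (z2_le_t I))
  obtain ⟨j, h1, h2⟩ := LP.floor (Qd hgen I) h0 hk'
  have hz : ∀ n : ℤ, R.T2.z ^ n = f 4 ^ (2 * n) := fun n => by
    rw [zpow_mul, z2_eq, zpow_two]
  have main : ∃ n, (R.Q hgen P).lt (R.u n) (f 4) ∧ (R.Q hgen P).lt (R.u n)⁻¹ (f 4) := by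
    rcases Int.even_or_odd' j with ⟨n, rfl | rfl⟩
    · refine ⟨n, ?_, ?_⟩
      · have := h2.mul (R.T2.z ^ n)⁻¹
        rwa [zpow_add, zpow_one, ← hz, inv_mul_cancel_left] at this
      · have := (R.Q hgen P).mul (R.T2.z ^ n)⁻¹ h1
        rw [← hz, inv_mul_cancel] at this
        exact lt_of_le_of_lt (inv_le_one this) (Qd hgen I)
    · refine ⟨n + 1, ?_, ?_⟩
      · have := h2.mul (R.T2.z ^ (n + 1))⁻¹
        rw [show 2 * n + 1 + 1 = 2 * (n + 1) by ring, ← hz, inv_mul_cancel] at this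
        exact this.trans (Qd hgen I)
      · have h3 := (R.Q hgen P).mul (R.T2.z ^ (n + 1))⁻¹ h1
        rw [show 2 * n + 1 = 2 * (n + 1) + (-1) by ring, zpow_add (f 4), ← hz, inv_mul_cancel_left,
          zpow_neg_one] at h3
        have hu : R.Cm (R.u (n + 1)) := fun g hg => R.uK _ hg
        change (R.Q hgen P).le (f 4)⁻¹ (R.u (n + 1)) at h3
        intro h4
        have h5 : (R.Q hgen P).le (R.u (n + 1)) (f 4)⁻¹ := by
          have := (R.Q hgen P).mul ((f 4)⁻¹ * R.u (n + 1)) h4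
          rw [mul_assoc, (hu _ R.dK).eq] at this
          simpa [mul_assoc] using this
        have h6 : (R.Q hgen P).le (R.T2.y⁻¹ * R.u (n + 1)) (R.u (n + 1)) := by
          rw [← (hu _ (inv_mem R.T2.yK)).eq]
          exact mul_le_right _ (inv_le_one (Qy hgen I).2)
        have h7 := (R.Q hgen P).mul (f 4)
          ((R.Q hgen P).trans ((R.Q hgen P).mul R.T2.y⁻¹ h3) ((R.Q hgen P).trans h6 h5))
        have e : f 4 * (R.T2.y⁻¹ * (f 4)⁻¹) = R.T2.a⁻¹ * R.T2.y⁻¹ * R.T2.a := by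
          show R.T2.a * (R.T2.y⁻¹ * R.T2.a⁻¹) = R.T2.a⁻¹ * R.T2.y⁻¹ * R.T2.a
          rw [R.T2.ainv, ← mul_assoc, ← mul_assoc, mul_assoc R.T2.z⁻¹,
            ((R.T2.za.mul_right R.T2.zy.inv_right).inv_left).eq]
        rw [e, mul_inv_cancel] at h7
        have h8 : (R.Q hgen P).lt 1 (R.T2.y * R.T2.a) :=
          lt_of_le_of_lt (Qy hgen I).2 (lt_mul_right _ (Qd hgen I))
        exact h8 ((R.Q hgen P).trans (Qle2 hgen I R.T2.g2) h7)
  obtain ⟨n, h3, h4⟩ := main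
  by_cases h5 : (R.Q hgen P).le (R.u n) 1
  · exact ⟨some (n, false), h3, h4, by simp, fun _ h6 => u_not_hull hgen I n h5 h6⟩
  · exact ⟨some (n, true), h3, h4, fun _ => h5, by simp⟩

theorem K2_bound {g : D} (hg : g ∈ R.T2.K) :
    ∃ j : ℤ, (R.Q hgen P).le (R.T2.z ^ j) g ∧ (R.Q hgen P).le g (R.T2.z ^ (j + 1)) := by
  obtain ⟨j, h1, h2⟩ := R.T2.floor hg
  exact ⟨j, Qle2 hgen I h1, Qle2 hgen I h2⟩

theorem G_lt_t (hp : R.Par hgen P none) {x : D} (hx : x ∈ G f) : P.lt x (f 5) := by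
  obtain ⟨n, hn, g, hg, rfl⟩ := R.nf_G hgen hx
  obtain ⟨j, -, h2⟩ := K2_bound hgen I hg
  have h3 : (R.Q hgen P).le (R.T2.z ^ (j + 1)) (f 4 ^ (2 * (j + 1)).natAbs) := by
    rw [z2_eq, ← zpow_two, ← zpow_mul, ← zpow_natCast]
    exact zpow_mono (Qd hgen I).le (by omega)
  exact lt_of_quo (lt_of_le_of_lt ((R.Q hgen P).trans (quo_left hn g)
    ((R.Q hgen P).trans h2 h3)) (hp _))

theorem t_pos : P.lt 1 (f 5) := lt_of_lt_of_le (z2_pos I) (z2_le_t I)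

omit I in
theorem sign_of_big {K : Subgroup D} (hK : K.Normal) {t : D} (ht : ∀ x ∈ K, P.lt x t)
    {x : D} (hx : x ∈ K) {k : ℤ} :
    (0 < k → P.lt 1 (x * t ^ k)) ∧ (k < 0 → P.lt (x * t ^ k) 1) := by
  have h1 : P.lt 1 t := ht 1 (one_mem _)
  constructor
  · intro hk
    have h2 : P.le (t ^ (1 : ℤ)) (t ^ k) := zpow_mono h1.le hk
    rw [zpow_one] at h2
    simpa using (lt_of_lt_of_le (ht _ (inv_mem hx)) h2).mul x
  · intro hk
    have h2 : P.le (t ^ (1 : ℤ)) (t ^ (-k)) := zpow_mono h1.le (by omega)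
    rw [zpow_one] at h2
    have := (lt_of_lt_of_le (ht _ (hK.conj_mem x hx (t ^ k)⁻¹)) h2).mul (t ^ k)
    simpa [mul_assoc] using this

theorem L_hull {κ : Option (ℤ × Bool)} (hp : R.Par hgen P κ) {x : D} (hx : x ∈ L f) :
    ∃ i : ℤ, P.le (f 5 ^ i) x := by
  rcases κ with _ | ⟨n0, e⟩
  · obtain ⟨g, hg, k, rfl⟩ := R.nf_L hgen hx
    refine ⟨k - 1, ?_⟩
    have hG := R.G_normal hgen
    have := (sign_of_big hG (fun x hx => G_lt_t hgen I hp hx)
      (hG.conj_mem g hg (f 5 ^ (k - 1))⁻¹) (k := 1)).1 one_pos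
    have h2 := (this.mul (f 5 ^ (k - 1))).le
    have e : f 5 ^ (k - 1) * ((f 5 ^ (k - 1))⁻¹ * g * (f 5 ^ (k - 1))⁻¹⁻¹ * f 5 ^ (1 : ℤ)) =
        g * f 5 ^ k := by
      rw [inv_inv, mul_assoc, mul_assoc, ← zpow_add, mul_inv_cancel_left, sub_add_cancel]
    rwa [mul_one, e] at h2
  · obtain ⟨n, hn, g, hg, k, rfl⟩ := R.nf_Lu hgen n0 hx
    obtain ⟨h1, h2, -, -⟩ := hp
    have hu : R.Cm (R.u n0) := fun g hg => R.uK _ hg
    have huk : R.Cm (R.u n0 ^ k) := fun g hg => (hu g hg).zpow_left k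
    obtain ⟨j, h3, -⟩ := K2_bound hgen I hg
    have h4 := up_zpow hgen I hu h1 h2 (-k)
    have h5 : (R.Q hgen P).le (R.T2.z ^ (-1 : ℤ)) (R.u n0 ^ k) := by
      have a1 := h4.mul ((f 4)⁻¹ * R.u n0 ^ k)
      rw [mul_assoc, ← zpow_add, add_neg_cancel, zpow_zero, mul_one, mul_assoc,
        (huk _ R.dK).eq, inv_mul_cancel_left] at a1
      refine (R.Q hgen P).trans ?_ a1.le
      rw [zpow_neg_one, z2_eq, mul_inv_rev]
      exact mul_le_right _ (inv_le_one (Qd hgen I).le)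
    have h6 : (R.Q hgen P).le (R.T2.z ^ (j + -1)) (n * g * R.u n0 ^ k) := by
      rw [zpow_add, mul_assoc]
      refine (R.Q hgen P).trans ((R.Q hgen P).mul _ h5) ((R.Q hgen P).trans ?_ (quo_left' hn _))
      rw [← (huk _ hg).eq, ← (huk _ (zpow_mem R.T2.zK j)).eq]
      exact (R.Q hgen P).mul _ h3
    have hz : (R.Q hgen P).lt 1 R.T2.z :=
      lt_of_lt_of_le (Qd hgen I) (le_mul_right _ (Qd hgen I).le)
    have h7 := lt_of_quo (lt_of_lt_of_le
      (zpow_lt hz (i := -((j.natAbs + 2 : ℕ) : ℤ)) (by omega)) h6)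
    refine ⟨-((j.natAbs + 2 : ℕ) : ℤ), P.trans ?_ h7.le⟩
    rw [zpow_neg, zpow_neg, zpow_natCast, zpow_natCast]
    exact comm_pow_inv (R.tK R.T2.zK).symm (z2_le_t I) _

theorem L_lt_s {κ : Option (ℤ × Bool)} (hp : R.Par hgen P κ) {x : D} (hx : x ∈ L f) :
    P.lt x (f 6) := by
  have hL := R.L_normal hgen
  obtain ⟨i, hi⟩ := L_hull hgen I hp (hL.conj_mem _ (inv_mem hx) (f 6)⁻¹)
  have h1 : P.lt (f 6)⁻¹ (f 5 ^ i) := fun h =>
    inv_not_hull (t_pos I) R.st h (i1 := 0) (by simpa using (inv_lt_one I.s).le)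
  have h2 := (lt_of_lt_of_le h1 hi).mul (f 6)
  have h3 := h2.mul x
  simpa [mul_assoc] using h3

omit I in
theorem decide_sign (κ : Option (ℤ × Bool)) (x : D) :
    (∀ P : LP D, R.Ineq P → R.Par hgen P κ → P.le 1 x) ∨
      ∀ P : LP D, R.Ineq P → R.Par hgen P κ → ¬ P.le 1 x := by
  have hL := R.L_normal hgen
  have hG := R.G_normal hgen
  have one_cm : R.Cm 1 := fun g _ => Commute.one_left g
  have base : ∀ l ∈ R.T1.K, (∀ P : LP D, R.Ineq P → R.Par hgen P κ → P.le 1 l) ∨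
      ∀ P : LP D, R.Ineq P → R.Par hgen P κ → ¬ P.le 1 l := by
    intro l hl
    by_cases h : l ∈ R.T1.M
    · exact Or.inl fun P I _ => (K1_sign I hl).2 h
    · exact Or.inr fun P I _ h' => h ((K1_sign I hl).1 h')
  obtain ⟨l, hl, j, rfl⟩ := R.nf_top hgen x
  rcases lt_trichotomy j 0 with hj | rfl | hj
  · exact Or.inr fun P I hp => (sign_of_big hL (fun x hx => L_lt_s hgen I hp hx) hl).2 hj
  swap
  · exact Or.inl fun P I hp => ((sign_of_big hL (fun x hx => L_lt_s hgen I hp hx) hl).1 hj).le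
  rw [zpow_zero, mul_one]
  rcases κ with _ | ⟨n0, e⟩
  · obtain ⟨g0, hg0, k, rfl⟩ := R.nf_L hgen hl
    rcases lt_trichotomy k 0 with hk | rfl | hk
    · exact Or.inr fun P I hp => (sign_of_big hG (fun x hx => G_lt_t hgen I hp hx) hg0).2 hk
    swap
    · exact Or.inl fun P I hp =>
        ((sign_of_big hG (fun x hx => G_lt_t hgen I hp hx) hg0).1 hk).le
    rw [zpow_zero]
    obtain ⟨n, hn, g, hg, rfl⟩ := R.nf_G hgen hg0
    rcases R.T2.tricho hg with ⟨i, rfl⟩ | ⟨i, hi⟩ | ⟨i, hi⟩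
    · rw [mul_one]; exact base _ (ny_mem hn i)
    · exact Or.inl fun P I _ =>
        (lt_of_quo (G_pos hgen I hn hg one_cm (by simpa using Qd hgen I) hi)).le
    · exact Or.inr fun P I _ => lt_of_quo (G_neg hgen I hn hg one_cm (Qd hgen I) hi)
  · obtain ⟨n, hn, g, hg, k, rfl⟩ := R.nf_Lu hgen n0 hl
    have hu : R.Cm (R.u n0) := fun g hg => R.uK _ hg
    have huk : R.Cm (R.u n0 ^ k) := fun g hg => (hu g hg).zpow_left k
    rcases R.T2.tricho hg with ⟨i, rfl⟩ | ⟨i, hi⟩ | ⟨i, hi⟩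
    · have hm := ny_mem (R := R) hn i
      have pos : ∀ P : LP D, R.Ineq P → (R.Q hgen P).lt 1 (R.u n0 ^ k) →
          P.le 1 (n * R.T2.y ^ i * R.u n0 ^ k) := fun P I h =>
        (lt_of_quo (lt_of_le_of_lt (K1_hull hgen I hm).2 (lt_mul_right _ h))).le
      have neg : ∀ P : LP D, R.Ineq P → (R.Q hgen P).lt (R.u n0 ^ k) 1 →
          ¬ P.le 1 (n * R.T2.y ^ i * R.u n0 ^ k) := fun P I h =>
        lt_of_quo (lt_of_lt_of_le (by simpa using h.mul (n * R.T2.y ^ i))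
          (K1_hull hgen I hm).1)
      rcases lt_trichotomy k 0 with hk | rfl | hk
      · cases e
        · refine Or.inl fun P I hp => pos P I ?_
          have := zpow_lt (one_lt_inv (hp.2.2.2 rfl)) (i := 0) (j := -k) (by omega)
          simpa using this
        · refine Or.inr fun P I hp => neg P I ?_
          have := zpow_lt (hp.2.2.1 rfl) hk
          simpa using this
      · rw [zpow_zero, mul_one]; exact base _ hm
      · cases e
        · refine Or.inr fun P I hp => neg P I ?_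
          have := zpow_lt (one_lt_inv (hp.2.2.2 rfl)) (i := -k) (j := 0) (by omega)
          simpa using this
        · refine Or.inl fun P I hp => pos P I ?_
          have := zpow_lt (hp.2.2.1 rfl) hk
          simpa using this
    · refine Or.inl fun P I hp => (lt_of_quo (G_pos hgen I hn hg huk ?_ hi)).le
      rw [← zpow_neg]; exact up_zpow hgen I hu hp.1 hp.2.1 _
    · exact Or.inr fun P I hp =>
        lt_of_quo (G_neg hgen I hn hg huk (up_zpow hgen I hu hp.1 hp.2.1 _) hi)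

omit I in
theorem sign_eq {κ : Option (ℤ × Bool)} {P P' : LP D} (I : R.Ineq P) (I' : R.Ineq P')
    (hp : R.Par hgen P κ) (hp' : R.Par hgen P' κ) (x : D) : P.le 1 x ↔ P'.le 1 x := by
  rcases decide_sign hgen κ x with h | h
  · exact iff_of_true (h P I hp) (h P' I' hp')
  · exact iff_of_false (h P I hp) (h P' I' hp')

end Rel

end Pool.Agent.H111Z.CO
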